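import Mathlib

set_option autoImplicit false

namespace Pool.Agent.MP_f8f515_al

/-- The data extracted from a class three loop with abelian inner mapping group. -/
structure PData (H V Z : Type*) [AddCommGroup V] [AddCommGroup Z] where
  N : H → V → V → Z
  S : H → H → V → Z
  t : V → H
  l : V → V → H
  sh : V → H → H
  symm : ∀ h g v, S h g v = S g h v
  S_t : ∀ h w y, S h (t w) y = N h y w - N h w y
  S_l : ∀ h x y w, S h (l x y) w = -(N h x y + N h (x + y) w - N h y w - N h x (y + w))
  S_sh : ∀ v h g x, S (sh v h) g x = S h g (x + v) - S h g v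

namespace PData

variable {H V Z : Type*} [AddCommGroup V] [AddCommGroup Z] (D : PData H V Z)

def A (h : H) (x y w : V) : Z :=
  D.N h x y + D.N h (x + y) w - D.N h y w - D.N h x (y + w)

def C (h : H) (x y : V) : Z := D.N h x y - D.N h y x

theorem C_swap (h : H) (x y : V) : D.C h x y = - D.C h y x := by
  unfold C; abel

theorem C_self (h : H) (x : V) : D.C h x x = 0 := by
  unfold C; abel

theorem St (h : H) (w y : V) : D.S h (D.t w) y = D.C h y w := D.S_t h w y

theorem St' (h : H) (w y : V) : D.S (D.t w) h y = D.C h y w := by rw [D.symm, St]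

theorem Sl (h : H) (x y w : V) : D.S h (D.l x y) w = - D.A h x y w := D.S_l h x y w

theorem Sl' (h : H) (x y w : V) : D.S (D.l x y) h w = - D.A h x y w := by rw [D.symm, Sl]

theorem A_id1 (h : H) (x y w : V) :
    D.A h x y w = - D.A h w y x + (D.C h (x + y) w - D.C h y w) + D.C h x y - D.C h x (w + y) := by
  unfold A C
  rw [add_comm x y, add_comm w y]
  abel

theorem A_id2 (h : H) (x y w : V) :
    D.A h x y w = (D.C h (y + x) w - D.C h x w) - D.C h y w - D.A h w x y + D.A h x w y := by
  unfold A C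
  rw [add_comm y x, add_comm w x, add_comm y w]
  abel

/-- `a_h(x,y,w) = S(h, r_{y,w}; x)`. -/
theorem G1 (h : H) (x y w : V) :
    D.A h x y w = D.S h (D.l w y) x + D.S h (D.sh y (D.t w)) x + D.S h (D.t y) x
      - D.S h (D.t (w + y)) x := by
  rw [D.symm h (D.sh y (D.t w)), D.S_sh, St', St', St, St, Sl, A_id1]

/-- `a_h(x,y,w) = S(h, m_{x,w}; y)`. -/
theorem G2 (h : H) (x y w : V) :
    D.A h x y w = D.S h (D.sh x (D.t w)) y - D.S h (D.t w) y + D.S h (D.l w x) y
      - D.S h (D.l x w) y := by
  rw [D.symm h (D.sh x (D.t w)), D.S_sh, St', St', St, Sl, Sl, A_id2]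
  abel

theorem G3 (h : H) (x y w : V) : D.A h x y w = - D.S h (D.l x y) w := by
  rw [Sl]; abel

theorem shift1 (h : H) (v x y w : V) :
    D.A h (x + v) y w - D.A h v y w = D.A (D.sh v h) x y w := by
  rw [D.G1 h, D.G1 h, D.G1 (D.sh v h)]
  simp only [D.S_sh v h]
  abel

theorem shift2 (h : H) (v x y w : V) :
    D.A h x (y + v) w - D.A h x v w = D.A (D.sh v h) x y w := by
  rw [D.G2 h, D.G2 h, D.G2 (D.sh v h)]
  simp only [D.S_sh v h]
  abel

theorem shift3 (h : H) (v x y w : V) :
    D.A h x y (w + v) - D.A h x y v = D.A (D.sh v h) x y w := by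
  rw [D.G3 h, D.G3 h, D.G3 (D.sh v h)]
  simp only [D.S_sh v h]
  abel

theorem cocycle (h : H) (x y z w : V) :
    D.A h y z w - D.A h (x + y) z w + D.A h x (y + z) w - D.A h x y (z + w) + D.A h x y z = 0 := by
  unfold A
  simp only [add_assoc]
  abel

end PData

theorem eq_zero_of_two_three {Z : Type*} [AddCommGroup Z] {z : Z} (h2 : z = - z)
    (h3 : z + z + z = 0) : z = 0 := by
  have : z + z = 0 := by nth_rewrite 1 [h2]; abel
  rwa [this, zero_add] at h3

/-- An antisymmetric function with the equal differences property and the cocycle identity is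
additive. -/
theorem additive_of {V Z : Type*} [AddCommGroup V] [AddCommGroup Z] (f : V → V → V → Z)
    (h12 : ∀ x y w, f x y w = - f y x w) (h23 : ∀ x y w, f x y w = - f x w y)
    (d12 : ∀ v x y w, f (x + v) y w - f v y w = f x (y + v) w - f x v w)
    (coc : ∀ x y z w, f y z w - f (x + y) z w + f x (y + z) w - f x y (z + w) + f x y z = 0) :
    ∀ x v y w, f (x + v) y w = f x y w + f v y w := by
  -- the defect
  set a : V → V → V → V → Z := fun x v y w => f (x + v) y w - f x y w - f v y w with ha
  have ha' : ∀ x v y w, a x v y w = f (x + v) y w - f x y w - f v y w := fun _ _ _ _ => rfl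
  have s1 : ∀ x v y w, a x v y w = a v x y w := by
    intro x v y w
    simp only [ha', add_comm x v]; abel
  have s2 : ∀ x v y w, a x v y w = - a x v w y := by
    intro x v y w
    simp only [ha']
    rw [h23 (x + v) y w, h23 x y w, h23 v y w]; abel
  have s3 : ∀ x v y w, a x v y w = - a y v x w := by
    intro x v y w
    have e := d12 v x y w
    simp only [ha']
    rw [h12 x (y + v) w, h12 x v w] at e
    rw [h12 x y w]
    have e' : f (x + v) y w - f v y w = - f (y + v) x w - - f v x w := e
    have : f (x + v) y w = - f (y + v) x w - - f v x w + f v y w := by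
      rw [← e']; abel
    rw [this]; abel
  have s4 : ∀ x v y w, a x v y w + a x v y w = 0 := by
    intro x v y w
    have : a x v y w = - a x v y w := by
      calc a x v y w = - a y v x w := s3 _ _ _ _
        _ = - a v y x w := by rw [s1 y v]
        _ = a x y v w := by rw [s3 v y x w]; abel
        _ = a y x v w := by rw [s1]
        _ = - a v x y w := s3 _ _ _ _
        _ = - a x v y w := by rw [s1 v x]
    nth_rewrite 2 [this]; abel
  have s4' : ∀ x v y w, - a x v y w = a x v y w := fun x v y w =>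
    neg_eq_of_add_eq_zero_left (s4 x v y w)
  have p2 : ∀ x v y w, a x v y w = a x y v w := by
    intro x v y w
    rw [s1, s3 v x y w, s4', s1]
  have p3 : ∀ x v y w, a x v y w = a x v w y := by
    intro x v y w
    rw [s2, s4']
  intro x v y w
  have hz : a x v y w = 0 := by
    have c := coc x v y w
    have e1 : f (x + v) y w = a x v y w + f x y w + f v y w := by simp only [ha']; abel
    have e2 : f x (v + y) w = - a v y x w + f x v w + f x y w := by
      simp only [ha']
      rw [h12 x (v + y) w, h12 x v w, h12 x y w]; abel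
    have e3 : f x v (y + w) = a y w x v + f x v y + f x v w := by
      simp only [ha']
      rw [h23 x v (y + w), h12 x (y + w) v, h23 x v y, h12 x y v, h23 x v w, h12 x w v]; abel
    rw [e1, e2, e3] at c
    have f1 : a v y x w = a x v y w := by
      rw [p2, s1]
    have f2 : a y w x v = a x v y w := by
      rw [p2, s1, p3, p2]
    rw [f1, f2] at c
    have c' : a x v y w + a x v y w + a x v y w = 0 := by
      have : - (a x v y w + a x v y w + a x v y w) = 0 := by rw [← c]; abel
      exact neg_eq_zero.mp this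
    rwa [s4, zero_add] at c'
  have := ha' x v y w
  rw [hz] at this
  have h' : f (x + v) y w - f x y w - f v y w = 0 := this.symm
  rw [sub_sub, sub_eq_zero] at h'
  exact h'

namespace PData

variable {H V Z : Type*} [AddCommGroup V] [AddCommGroup Z] (D : PData H V Z)

/-- The quadrilinear-form candidate. -/
def F (x y w z : V) : Z := D.A (D.t z) x y w

theorem F_14_aux (x y w z : V) : D.F x y w z =
    D.C (D.l w y) x z + D.C (D.sh y (D.t w)) x z + D.C (D.t y) x z - D.C (D.t (w + y)) x z := by
  unfold F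
  rw [D.G1, St', St', St', St']

theorem F_24_aux (x y w z : V) : D.F x y w z =
    D.C (D.sh x (D.t w)) y z - D.C (D.t w) y z + D.C (D.l w x) y z - D.C (D.l x w) y z := by
  unfold F
  rw [D.G2, St', St', St', St']

theorem F_34_aux (x y w z : V) : D.F x y w z = - D.C (D.l x y) w z := by
  unfold F
  rw [D.G3, St']

theorem F_14 (x y w z : V) : D.F x y w z = - D.F z y w x := by
  rw [F_14_aux, F_14_aux, D.C_swap _ x z, D.C_swap _ x z, D.C_swap _ x z, D.C_swap _ x z]
  abel

theorem F_24 (x y w z : V) : D.F x y w z = - D.F x z w y := by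
  rw [F_24_aux, F_24_aux, D.C_swap _ y z, D.C_swap _ y z, D.C_swap _ y z, D.C_swap _ y z]
  abel

theorem F_34 (x y w z : V) : D.F x y w z = - D.F x y z w := by
  rw [F_34_aux, F_34_aux, D.C_swap _ w z]

theorem F_14z (x y w : V) : D.F x y w x = 0 := by
  rw [F_14_aux]; simp only [C_self]; abel

theorem F_24z (x y w : V) : D.F x y w y = 0 := by
  rw [F_24_aux]; simp only [C_self]; abel

theorem F_34z (x y w : V) : D.F x y w w = 0 := by
  rw [F_34_aux]; simp only [C_self]; abel

theorem F_12z (x w z : V) : D.F x x w z = 0 := by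
  rw [F_14, F_24z, neg_zero]

theorem F_13z (x y z : V) : D.F x y x z = 0 := by
  rw [F_14, F_34z, neg_zero]

theorem F_23z (x y z : V) : D.F x y y z = 0 := by
  rw [F_24, F_34z, neg_zero]

theorem F_12 (x y w z : V) : D.F x y w z = - D.F y x w z := by
  rw [D.F_14 x y w z, D.F_24 z y w x, D.F_14 z x w y, neg_neg]

theorem F_23 (x y w z : V) : D.F x y w z = - D.F x w y z := by
  rw [D.F_24 x y w z, D.F_34 x z w y, D.F_24 x z y w, neg_neg]

theorem F_add1 (x x' y w z : V) : D.F (x + x') y w z = D.F x y w z + D.F x' y w z :=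
  additive_of (fun x y w => D.F x y w z) (fun x y w => D.F_12 x y w z)
    (fun x y w => D.F_23 x y w z)
    (fun v x y w => by
      show D.A _ _ _ _ - D.A _ _ _ _ = D.A _ _ _ _ - D.A _ _ _ _
      rw [D.shift1, D.shift2])
    (fun x y z' w => D.cocycle _ x y z' w) x x' y w

theorem F_add2 (x y y' w z : V) : D.F x (y + y') w z = D.F x y w z + D.F x y' w z := by
  rw [F_12, F_add1, D.F_12 x y, D.F_12 x y']; abel

theorem F_add3 (x y w w' z : V) : D.F x y (w + w') z = D.F x y w z + D.F x y w' z := by
  rw [F_23, F_add2, D.F_23 x y w, D.F_23 x y w']; abel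

theorem F_add4 (x y w z z' : V) : D.F x y w (z + z') = D.F x y w z + D.F x y w z' := by
  rw [F_34, F_add3, D.F_34 x y w z, D.F_34 x y w z']; abel

/-- The pentalinear-form candidate. -/
def P (u v x y w : V) : Z := D.A (D.l u v) x y w

section

variable (hF : ∀ x y w z, D.F x y w z = 0)

theorem P_swap (u v x y w : V) : D.P u v x y w = D.P x y u v w := by
  unfold P
  rw [D.G3, Sl']; abel

include hF

theorem hF' (z x y w : V) : D.A (D.t z) x y w = 0 := hF x y w z

theorem P_rot (u v x y w : V) : D.P u v x y w = - D.P w y u v x := by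
  unfold P
  rw [D.G1, D.symm _ (D.sh y (D.t w)), D.S_sh, D.Sl' (D.l w y) u v x, D.Sl' (D.t y) u v x,
    D.Sl' (D.t (w + y)) u v x, D.Sl (D.t w) u v, D.Sl (D.t w) u v, D.hF' hF, D.hF' hF, D.hF' hF,
    D.hF' hF]
  abel

theorem P_mix (u v x y w : V) : D.P u v x y w = - D.P w x u v y + D.P x w u v y := by
  unfold P
  rw [D.G2, D.symm _ (D.sh x (D.t w)), D.S_sh, D.Sl' (D.l w x) u v y, D.Sl' (D.l x w) u v y,
    D.Sl' (D.t w) u v y, D.Sl (D.t w) u v, D.Sl (D.t w) u v, D.hF' hF, D.hF' hF, D.hF' hF]
  abel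

theorem P_35 (u v x y w : V) : D.P u v x y w = - D.P u v w y x := by
  rw [D.P_rot hF u v x y w, D.P_swap w y u v x]

theorem P_15 (u v x y w : V) : D.P u v x y w = - D.P w v x y u := by
  rw [D.P_swap u v x y w, D.P_35 hF x y u v w, D.P_swap x y w v u]

theorem P_13 (u v x y w : V) : D.P u v x y w = - D.P x v u y w := by
  rw [D.P_15 hF u v x y w, D.P_35 hF w v x y u, D.P_15 hF w v u y x, neg_neg]

theorem P_24 (u v x y w : V) : D.P u v x y w = - D.P u y x v w := by
  rw [D.P_swap u v x y w, D.P_13 hF x y u v w]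

theorem P_16 (u v x y w : V) : D.P u v x y w = D.P u x w v y - D.P u w x v y := by
  rw [D.P_mix hF u v x y w, D.P_13 hF w x u v y, D.P_13 hF x w u v y]; abel

theorem P_12 (u v x y w : V) : D.P u v x y w = - D.P v u x y w := by
  -- rename: we prove it for `P u x w v y`
  have key : ∀ u v x y w, D.P u x w v y = - D.P x u w v y := by
    intro u v x y w
    have e1 := D.P_16 hF u v x y w
    have e2 := D.P_16 hF x v u y w
    rw [← neg_inj, ← D.P_13 hF u v x y w, D.P_13 hF x w u v y] at e2
    have : D.P u x w v y - D.P u w x v y = -(D.P x u w v y - - D.P u w x v y) := by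
      rw [← e1, ← e2]
    have h' : D.P u x w v y = -(D.P x u w v y - - D.P u w x v y) + D.P u w x v y := by
      rw [← this]; abel
    rw [h']; abel
  exact key u y v w x

theorem P_23 (u v x y w : V) : D.P u v x y w = - D.P u x v y w := by
  rw [D.P_13 hF u v x y w, D.P_12 hF x v u y w, D.P_13 hF v x u y w, neg_neg]

theorem P_34 (u v x y w : V) : D.P u v x y w = - D.P u v y x w := by
  rw [D.P_23 hF u v x y w, D.P_24 hF u x v y w, D.P_23 hF u y v x w, neg_neg]

theorem P_45 (u v x y w : V) : D.P u v x y w = - D.P u v x w y := by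
  rw [D.P_34 hF u v x y w, D.P_35 hF u v y x w, D.P_34 hF u v w x y, neg_neg]

theorem P_three (u v x y w : V) : D.P u v x y w + D.P u v x y w + D.P u v x y w = 0 := by
  have e1 := D.P_16 hF u v x y w
  have e2 : D.P u x w v y = - D.P u v x y w := by
    rw [D.P_34 hF u x w v y, D.P_23 hF u x v w y, D.P_45 hF u v x w y, neg_neg]
  have e3 : D.P u w x v y = D.P u v x y w := by
    rw [D.P_24 hF u w x v y, D.P_45 hF u v x w y, neg_neg]
  rw [e2, e3] at e1
  nth_rewrite 1 [e1]
  abel

theorem P_12z (u x y w : V) : D.P u u x y w = 0 :=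
  eq_zero_of_two_three (D.P_12 hF u u x y w) (D.P_three hF u u x y w)

theorem P_23z (u x y w : V) : D.P u x x y w = 0 :=
  eq_zero_of_two_three (D.P_23 hF u x x y w) (D.P_three hF u x x y w)

theorem P_34z (u x y w : V) : D.P u x y y w = 0 :=
  eq_zero_of_two_three (D.P_34 hF u x y y w) (D.P_three hF u x y y w)

theorem P_45z (u x y w : V) : D.P u x y w w = 0 :=
  eq_zero_of_two_three (D.P_45 hF u x y w w) (D.P_three hF u x y w w)

theorem P_13z (u x y w : V) : D.P u x u y w = 0 :=
  eq_zero_of_two_three (D.P_13 hF u x u y w) (D.P_three hF u x u y w)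

theorem P_24z (u x y w : V) : D.P u x y x w = 0 :=
  eq_zero_of_two_three (D.P_24 hF u x y x w) (D.P_three hF u x y x w)

theorem P_35z (u x y w : V) : D.P u x y w y = 0 :=
  eq_zero_of_two_three (D.P_35 hF u x y w y) (D.P_three hF u x y w y)

theorem P_15z (u x y w : V) : D.P u x y w u = 0 :=
  eq_zero_of_two_three (D.P_15 hF u x y w u) (D.P_three hF u x y w u)

theorem P_14z (u x y w : V) : D.P u x y u w = 0 := by
  rw [D.P_34 hF, D.P_13z hF, neg_zero]

theorem P_25z (u x y w : V) : D.P u x y w x = 0 := by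
  rw [D.P_45 hF, D.P_24z hF, neg_zero]

theorem P_add3 (u v x x' y w : V) : D.P u v (x + x') y w = D.P u v x y w + D.P u v x' y w :=
  additive_of (fun x y w => D.P u v x y w) (fun x y w => D.P_34 hF u v x y w)
    (fun x y w => D.P_45 hF u v x y w)
    (fun v x y w => by
      show D.A _ _ _ _ - D.A _ _ _ _ = D.A _ _ _ _ - D.A _ _ _ _
      rw [D.shift1, D.shift2])
    (fun x y z' w => D.cocycle _ x y z' w) x x' y w

theorem P_add2 (u v v' x y w : V) : D.P u (v + v') x y w = D.P u v x y w + D.P u v' x y w := by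
  rw [D.P_23 hF, D.P_add3 hF, D.P_23 hF u v, D.P_23 hF u v']; abel

theorem P_add1 (u u' v x y w : V) : D.P (u + u') v x y w = D.P u v x y w + D.P u' v x y w := by
  rw [D.P_12 hF, D.P_add2 hF, D.P_12 hF u v, D.P_12 hF u' v]; abel

theorem P_add4 (u v x y y' w : V) : D.P u v x (y + y') w = D.P u v x y w + D.P u v x y' w := by
  rw [D.P_34 hF, D.P_add3 hF, D.P_34 hF u v x y, D.P_34 hF u v x y']; abel

theorem P_add5 (u v x y w w' : V) : D.P u v x y (w + w') = D.P u v x y w + D.P u v x y w' := by
  rw [D.P_45 hF, D.P_add4 hF, D.P_45 hF u v x y w, D.P_45 hF u v x y w']; abel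

end

/-- The trilinear-form candidate. -/
def b (x y z : V) : Z := D.S (D.t z) (D.t y) x

theorem b_eq (x y z : V) : D.b x y z = D.C (D.t z) x y := by
  unfold b; rw [St]

theorem b_23 (x y z : V) : D.b x y z = D.b x z y := by
  unfold b; rw [D.symm]

theorem b_12 (x y z : V) : D.b x y z = - D.b y x z := by
  rw [b_eq, b_eq, C_swap]

theorem b_12z (x z : V) : D.b x x z = 0 := by
  rw [b_eq, C_self]

theorem b_13z (x y : V) : D.b x y x = 0 := by
  rw [b_23, b_12z]

theorem b_23z (x y : V) : D.b x y y = 0 := by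
  rw [b_12, b_13z, neg_zero]

theorem C_add (h : H) (x y w : V) : D.C h (x + y) w - D.C h x w - D.C h y w =
    D.A h x y w - D.A h x w y + D.A h w x y := by
  unfold A C
  rw [add_comm w x, add_comm w y]
  abel

theorem b_add1 (hF : ∀ x y w z, D.F x y w z = 0) (x x' y z : V) :
    D.b (x + x') y z = D.b x y z + D.b x' y z := by
  have h := D.C_add (D.t z) x x' y
  rw [D.hF' hF, D.hF' hF, D.hF' hF, sub_self, zero_add, sub_sub, sub_eq_zero] at h
  rw [b_eq, b_eq, b_eq, h]

theorem b_add2 (hF : ∀ x y w z, D.F x y w z = 0) (x y y' z : V) :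
    D.b x (y + y') z = D.b x y z + D.b x y' z := by
  rw [b_12, D.b_add1 hF, D.b_12 x y, D.b_12 x y']; abel

theorem b_add3 (hF : ∀ x y w z, D.F x y w z = 0) (x y z z' : V) :
    D.b x y (z + z') = D.b x y z + D.b x y z' := by
  rw [b_23, D.b_add2 hF, D.b_23 x z, D.b_23 x z']

end PData

end Pool.Agent.MP_f8f515_al
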