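import Mathlib

set_option autoImplicit false

namespace Pool.Agent.MP_f8f515_al

/-- Independence lemma: elements `a i` and additive characters `χ i` vanishing on `B` with
diagonal non-vanishing Gram matrix force the index of `B` to be at least `2 ^ n`. -/
theorem two_pow_le_index {A Z ι : Type*} [Group A] [AddCommGroup Z] [Fintype ι] [DecidableEq ι]
    [Finite A] (B : Subgroup A) (a : ι → A) (χ : ι → A → Z)
    (hmul : ∀ i x y, χ i (x * y) = χ i x + χ i y)
    (hB : ∀ i, ∀ b ∈ B, χ i b = 0)
    (h1 : ∀ i j, i ≠ j → χ i (a j) = 0)
    (h2 : ∀ i, χ i (a i) ≠ 0) : 2 ^ (Fintype.card ι) ≤ B.index := by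
  classical
  have hone : ∀ i, χ i 1 = 0 := fun i => hB i 1 (one_mem _)
  have hinv : ∀ i x, χ i x⁻¹ = - χ i x := by
    intro i x
    have := hmul i x⁻¹ x
    rw [inv_mul_cancel, hone] at this
    exact (neg_eq_of_add_eq_zero_left this.symm).symm
  have key : ∀ s : Finset ι, ∃ g : A, ∀ i, χ i g = if i ∈ s then χ i (a i) else 0 := by
    intro s
    induction s using Finset.induction_on with
    | empty => exact ⟨1, fun i => by simp [hone]⟩
    | insert j s hj ih =>
      obtain ⟨g, hg⟩ := ih
      refine ⟨g * a j, fun i => ?_⟩
      rw [hmul, hg]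
      by_cases hij : i = j
      · subst hij
        simp [hj]
      · simp [hij, h1 i j hij]
  choose g hg using key
  have hinj : Function.Injective (fun s : Finset ι => (QuotientGroup.mk (g s) : A ⧸ B)) := by
    intro s s' hss
    have hmem : (g s)⁻¹ * g s' ∈ B := QuotientGroup.eq.mp hss
    ext i
    have h := hB i _ hmem
    rw [hmul, hinv, hg, hg] at h
    by_cases his : i ∈ s <;> by_cases his' : i ∈ s'
    · simp [his, his']
    · simp only [his, his', if_true, if_false, add_zero, neg_eq_zero] at h
      exact absurd h (h2 i)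
    · simp only [his, his', if_true, if_false, neg_zero, zero_add] at h
      exact absurd h (h2 i)
    · simp [his, his']
  have := Nat.card_le_card_of_injective _ hinj
  rw [Nat.card_eq_fintype_card, Fintype.card_finset] at this
  exact this

end Pool.Agent.MP_f8f515_al
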