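import Mathlib
import Pool.Agent.MP_f8f515_al.Alg
import Pool.Agent.MP_f8f515_al.Count

set_option autoImplicit false

open scoped commutatorElement

namespace Pool.Agent.MP_f8f515_al

/-- The group-theoretic situation of a multiplication group `G` of a loop of class three with
abelian inner mapping group `H`. -/
structure Setup (G V : Type*) [Group G] [AddCommGroup V] where
  pr : G → V
  pr_mul : ∀ a b, pr (a * b) = pr a + pr b
  H : Subgroup G
  C : Subgroup G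
  H_le : ∀ h ∈ H, pr h = 0
  C_le : ∀ c ∈ C, pr c = 0
  H_comm : ∀ a ∈ H, ∀ b ∈ H, a * b = b * a
  C_comm : ∀ a ∈ C, ∀ b ∈ C, a * b = b * a
  C_normal : C.Normal
  dec : ∀ g, pr g = 0 → ∃ c ∈ C, ∃ h ∈ H, g = c * h
  cls2 : ∀ a b c, pr a = 0 → pr b = 0 → pr c = 0 → c * ⁅a, b⁆ = ⁅a, b⁆ * c
  C_cen : ∀ c ∈ C, ∀ g a, pr a = 0 → a * ⁅c, g⁆ = ⁅c, g⁆ * a
  lam : V → G
  pr_lam : ∀ v, pr (lam v) = v
  t : V → G
  t_mem : ∀ v, t v ∈ H
  tt : ∀ y w, (lam y * lam w)⁻¹ * (lam w * t w * lam y) ∈ H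
  gen : Subgroup.closure (Set.range lam ∪ Set.range t ∪ (C : Set G)) = ⊤
  ncl : ∀ g, pr g = 0 → g ∈ Subgroup.normalClosure (H : Set G)
  tc : ∀ c ∈ C, ∃ T ∈ H, (∀ a, pr a = 0 → a * T = T * a) ∧
    ∀ v, (lam v)⁻¹ * T * lam v * ⁅t v, c⁆ ∈ H
  core : ∀ k ∈ H, (∀ g, g * k = k * g) → k = 1

namespace Setup

variable {G V : Type*} [Group G] [AddCommGroup V] (S : Setup G V)

theorem pr_one : S.pr 1 = 0 := by
  have := S.pr_mul 1 1
  rw [mul_one] at this
  exact left_eq_add.mp this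

theorem pr_inv (a : G) : S.pr a⁻¹ = - S.pr a := by
  have := S.pr_mul a⁻¹ a
  rw [inv_mul_cancel, pr_one] at this
  exact (neg_eq_of_add_eq_zero_left this.symm).symm

/-- The kernel of `pr`. -/
def G1 : Subgroup G where
  carrier := {g | S.pr g = 0}
  mul_mem' := by
    intro a b ha hb
    simp only [Set.mem_setOf_eq] at ha hb ⊢
    rw [S.pr_mul, ha, hb, add_zero]
  one_mem' := S.pr_one
  inv_mem' := by
    intro a ha
    simp only [Set.mem_setOf_eq] at ha ⊢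
    rw [S.pr_inv, ha, neg_zero]

theorem mem_G1 (g : G) : g ∈ S.G1 ↔ S.pr g = 0 := Iff.rfl

/-- The value group. -/
def Z : Type _ := Additive (Subgroup.center ↥S.G1)

/-- The center of `G1` as a commutative group. -/
instance cenComm : CommGroup (Subgroup.center ↥S.G1) where
  mul_comm := fun a b => Subtype.ext (Subgroup.mem_center_iff.mp b.2 a)

instance : AddCommGroup S.Z := inferInstanceAs (AddCommGroup (Additive (Subgroup.center ↥S.G1)))

def mkZ (a : Subgroup.center ↥S.G1) : S.Z := Additive.ofMul a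

def unZ (a : S.Z) : Subgroup.center ↥S.G1 := Additive.toMul a

@[simp] theorem unZ_mkZ (a : Subgroup.center ↥S.G1) : S.unZ (S.mkZ a) = a := rfl

@[simp] theorem mkZ_unZ (a : S.Z) : S.mkZ (S.unZ a) = a := rfl

theorem mkZ_mul (a b : Subgroup.center ↥S.G1) : S.mkZ (a * b) = S.mkZ a + S.mkZ b := rfl

theorem mkZ_inv (a : Subgroup.center ↥S.G1) : S.mkZ (a⁻¹) = - S.mkZ a := rfl

theorem mkZ_one : S.mkZ 1 = 0 := rfl

theorem unZ_add (a b : S.Z) : S.unZ (a + b) = S.unZ a * S.unZ b := rfl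

theorem unZ_neg (a : S.Z) : S.unZ (-a) = (S.unZ a)⁻¹ := rfl

theorem unZ_zero : S.unZ 0 = 1 := rfl

theorem mkZ_inj (a b : Subgroup.center ↥S.G1) : S.mkZ a = S.mkZ b ↔ a = b := Iff.rfl

/-- The commutator form on `G1`. -/
def bt (a b : S.G1) : S.Z := S.mkZ ⟨⁅a, b⁆, by
  rw [Subgroup.mem_center_iff]
  intro c
  exact Subtype.ext (S.cls2 a b c a.2 b.2 c.2)⟩

theorem bt_eq_zero_iff (a b : S.G1) : S.bt a b = 0 ↔ a * b = b * a := by
  unfold bt
  rw [← mkZ_one, mkZ_inj, ← commutatorElement_eq_one_iff_mul_comm]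
  constructor
  · intro h; exact congrArg Subtype.val h
  · intro h; exact Subtype.ext h

theorem bt_swap (a b : S.G1) : S.bt a b = - S.bt b a := by
  unfold bt
  rw [← mkZ_inv, mkZ_inj]
  apply Subtype.ext
  show ⁅a, b⁆ = ⁅b, a⁆⁻¹
  rw [commutatorElement_inv]

theorem bt_mul_left (a b c : S.G1) : S.bt (a * b) c = S.bt a c + S.bt b c := by
  unfold bt
  rw [← mkZ_mul, mkZ_inj]
  apply Subtype.ext
  show ⁅a * b, c⁆ = ⁅a, c⁆ * ⁅b, c⁆
  have h : ∀ d : S.G1, d * ⁅b, c⁆ = ⁅b, c⁆ * d := fun d =>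
    Subtype.ext (S.cls2 b c d b.2 c.2 d.2)
  have e1 : ⁅a * b, c⁆ = a * ⁅b, c⁆ * (c * a⁻¹ * c⁻¹) := by
    simp only [commutatorElement_def]; group
  have e2 : ⁅a, c⁆ * ⁅b, c⁆ = a * (c * a⁻¹ * c⁻¹ * ⁅b, c⁆) := by
    simp only [commutatorElement_def]; group
  rw [e1, e2, h (c * a⁻¹ * c⁻¹), mul_assoc]

theorem bt_mul_right (a b c : S.G1) : S.bt a (b * c) = S.bt a b + S.bt a c := by
  rw [bt_swap, bt_mul_left, S.bt_swap a b, S.bt_swap a c]; abel

theorem bt_one_left (a : S.G1) : S.bt 1 a = 0 := by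
  rw [bt_eq_zero_iff, one_mul, mul_one]

theorem bt_one_right (a : S.G1) : S.bt a 1 = 0 := by
  rw [bt_eq_zero_iff, one_mul, mul_one]

theorem bt_inv_left (a b : S.G1) : S.bt a⁻¹ b = - S.bt a b := by
  have := S.bt_mul_left a⁻¹ a b
  rw [inv_mul_cancel, bt_one_left] at this
  exact (neg_eq_of_add_eq_zero_left this.symm).symm

theorem bt_inv_right (a b : S.G1) : S.bt a b⁻¹ = - S.bt a b := by
  rw [bt_swap, bt_inv_left, S.bt_swap a b]

/-- Conjugation `g ↦ u⁻¹ g u` on `G1`. -/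
def cj (u : G) (g : S.G1) : S.G1 := ⟨u⁻¹ * g * u, by
  rw [mem_G1, S.pr_mul, S.pr_mul, S.pr_inv, (S.mem_G1 g).mp g.2]; abel⟩

@[simp] theorem cj_coe (u : G) (g : S.G1) : (S.cj u g : G) = u⁻¹ * g * u := rfl

theorem cj_mul (u : G) (a b : S.G1) : S.cj u (a * b) = S.cj u a * S.cj u b := by
  apply Subtype.ext
  simp only [cj_coe, Subgroup.coe_mul]; group

theorem cj_inv (u : G) (a : S.G1) : S.cj u a⁻¹ = (S.cj u a)⁻¹ := by
  apply Subtype.ext
  simp only [cj_coe, Subgroup.coe_inv]; group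

theorem cj_comp (u v : G) (a : S.G1) : S.cj v (S.cj u a) = S.cj (u * v) a := by
  apply Subtype.ext
  simp only [cj_coe]; group

theorem cj_one (a : S.G1) : S.cj 1 a = a := by
  apply Subtype.ext
  simp only [cj_coe]; group

theorem cj_inj (u : G) (a b : S.G1) (h : S.cj u a = S.cj u b) : a = b := by
  have := congrArg (S.cj u⁻¹) h
  rwa [cj_comp, cj_comp, mul_inv_cancel, cj_one, cj_one] at this

theorem cj_comm (u : G) (a b : S.G1) : S.cj u ⁅a, b⁆ = ⁅S.cj u a, S.cj u b⁆ := by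
  simp only [commutatorElement_def, cj_mul, cj_inv]

/-- Conjugation on the value group. -/
def cjZ (u : G) (z : S.Z) : S.Z := S.mkZ ⟨S.cj u (S.unZ z), by
  rw [Subgroup.mem_center_iff]
  intro c
  have hz := Subgroup.mem_center_iff.mp (S.unZ z).2 (S.cj u⁻¹ c)
  have h2 := congrArg (S.cj u) hz
  rw [cj_mul, cj_mul, cj_comp, inv_mul_cancel, cj_one] at h2
  exact h2⟩

theorem cjZ_bt (u : G) (a b : S.G1) : S.cjZ u (S.bt a b) = S.bt (S.cj u a) (S.cj u b) := by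
  unfold cjZ bt
  rw [mkZ_inj]
  exact Subtype.ext (S.cj_comm u a b)

theorem cjZ_add (u : G) (a b : S.Z) : S.cjZ u (a + b) = S.cjZ u a + S.cjZ u b := by
  unfold cjZ
  rw [← mkZ_mul, mkZ_inj]
  exact Subtype.ext (S.cj_mul u _ _)

theorem cjZ_inj (u : G) (a b : S.Z) (h : S.cjZ u a = S.cjZ u b) : a = b := by
  unfold cjZ at h
  rw [mkZ_inj] at h
  have := S.cj_inj u _ _ (congrArg Subtype.val h)
  have h2 : S.unZ a = S.unZ b := Subtype.ext this
  exact h2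

/-- Conjugating by an element of `G1` does not change the form. -/
theorem bt_cj_G1 (a b : S.G1) (u : S.G1) : S.bt a (S.cj u b) = S.bt a b := by
  have : S.cj u b = u⁻¹ * b * u := Subtype.ext rfl
  rw [this, bt_mul_right, bt_mul_right, bt_inv_right]; abel

/-- The inclusion of `H`. -/
def inc (h : S.H) : S.G1 := ⟨h, S.H_le h h.2⟩

@[simp] theorem inc_coe (h : S.H) : (S.inc h : G) = h := rfl

theorem bt_inc (h g : S.H) : S.bt (S.inc h) (S.inc g) = 0 := by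
  rw [bt_eq_zero_iff]
  exact Subtype.ext (S.H_comm h h.2 g g.2)

theorem bt_CC (c d : S.G1) (hc : (c : G) ∈ S.C) (hd : (d : G) ∈ S.C) : S.bt c d = 0 := by
  rw [bt_eq_zero_iff]
  exact Subtype.ext (S.C_comm c hc d hd)

theorem bt_cen (a b : S.G1) (hb : ∀ c, S.pr c = 0 → c * (b : G) = b * c) : S.bt a b = 0 := by
  rw [bt_eq_zero_iff]
  exact Subtype.ext (hb a a.2)

theorem bt_cjC (a c : S.G1) (u : G) (hc : (c : G) ∈ S.C) : S.bt a (S.cj u c) = S.bt a c := by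
  have h1 : S.cj u c = c * (c⁻¹ * S.cj u c) := by group
  rw [h1, bt_mul_right, S.bt_cen a (c⁻¹ * S.cj u c), add_zero]
  intro d hd
  have := S.C_cen (c : G)⁻¹ (inv_mem hc) u⁻¹ d hd
  have e : ((c⁻¹ * S.cj u c : S.G1) : G) = ⁅(c : G)⁻¹, u⁻¹⁆ := by
    simp only [Subgroup.coe_mul, Subgroup.coe_inv, cj_coe, commutatorElement_def, inv_inv]; group
  rw [e]; exact this

theorem dec' (g : S.G1) : ∃ c : S.G1, (c : G) ∈ S.C ∧ ∃ h : S.H, g = c * S.inc h := by
  obtain ⟨c, hc, h, hh, e⟩ := S.dec g g.2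
  exact ⟨⟨c, S.C_le c hc⟩, hc, ⟨h, hh⟩, Subtype.ext e⟩

/-- The `C`-part. -/
noncomputable def qc (g : S.G1) : S.G1 := (S.dec' g).choose

theorem qc_mem (g : S.G1) : (S.qc g : G) ∈ S.C := (S.dec' g).choose_spec.1

/-- The `H`-part. -/
noncomputable def hp (g : S.G1) : S.H := (S.dec' g).choose_spec.2.choose

theorem qc_hp (g : S.G1) : g = S.qc g * S.inc (S.hp g) := (S.dec' g).choose_spec.2.choose_spec

theorem bt_qc (h : S.H) (g : S.G1) : S.bt (S.inc h) (S.qc g) = S.bt (S.inc h) g := by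
  conv_rhs => rw [S.qc_hp g]
  rw [bt_mul_right, bt_inc, add_zero]

theorem inc_hp (g : S.G1) : S.inc (S.hp g) = (S.qc g)⁻¹ * g :=
  (inv_mul_eq_of_eq_mul (S.qc_hp g)).symm

/-- The cocycle. -/
def gam (x y : V) : S.G1 := ⟨(S.lam (x + y))⁻¹ * S.lam x * S.lam y, by
  rw [mem_G1, S.pr_mul, S.pr_mul, S.pr_inv, S.pr_lam, S.pr_lam, S.pr_lam]; abel⟩

@[simp] theorem gam_coe (x y : V) :
    (S.gam x y : G) = (S.lam (x + y))⁻¹ * S.lam x * S.lam y := rfl

/-- The form `S(h, g; v)`. -/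
def SS (h g : S.H) (v : V) : S.Z := S.bt (S.inc h) (S.cj (S.lam v) (S.inc g))

/-- The form `N_h(x, y)`. -/
def NN (h : S.H) (x y : V) : S.Z := S.bt (S.inc h) (S.gam x y)

theorem SS_symm (h g : S.H) (v : V) : S.SS h g v = S.SS g h v := by
  set u := S.lam v with hu
  have e1 := S.qc_hp (S.cj u (S.inc h))
  have e2 := S.qc_hp (S.cj u (S.inc g))
  set c1 := S.qc (S.cj u (S.inc h)) with hc1
  set c2 := S.qc (S.cj u (S.inc g)) with hc2
  set h1 := S.hp (S.cj u (S.inc h)) with hh1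
  set g1 := S.hp (S.cj u (S.inc g)) with hg1
  have m1 : (c1 : G) ∈ S.C := S.qc_mem _
  have m2 : (c2 : G) ∈ S.C := S.qc_mem _
  have k0 : S.bt (S.cj u (S.inc h)) (S.cj u (S.inc g)) = 0 := by
    rw [bt_eq_zero_iff, ← cj_mul, ← cj_mul, (S.bt_eq_zero_iff _ _).mp (S.bt_inc h g)]
  -- decompose
  have k1 : S.bt (S.inc h1) c2 = S.bt (S.inc g1) c1 := by
    rw [e1, e2, bt_mul_left, bt_mul_right, bt_mul_right, S.bt_CC c1 c2 m1 m2, bt_inc, zero_add,
      add_zero, S.bt_swap c1, neg_add_eq_zero] at k0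
    exact k0.symm
  have k2 : S.bt (S.cj u (S.inc h)) (S.cj u c2) = S.bt (S.cj u (S.inc g)) (S.cj u c1) := by
    rw [S.bt_cjC _ c2 u m2, S.bt_cjC _ c1 u m1, e1, e2, bt_mul_left, bt_mul_left,
      S.bt_CC c1 c2 m1 m2, S.bt_CC c2 c1 m2 m1, zero_add, zero_add, k1]
  rw [← cjZ_bt, ← cjZ_bt] at k2
  have k3 := S.cjZ_inj _ _ _ k2
  rw [hc2, bt_qc, hc1, bt_qc] at k3
  exact k3

theorem SS_t (h : S.H) (w y : V) :
    S.SS h ⟨S.t w, S.t_mem w⟩ y = S.NN h y w - S.NN h w y := by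
  unfold SS NN
  have h0 : S.bt (S.inc h) ((S.gam y w)⁻¹ * S.gam w y *
      S.cj (S.lam y) (S.inc ⟨S.t w, S.t_mem w⟩)) = 0 := by
    have e : (S.gam y w)⁻¹ * S.gam w y * S.cj (S.lam y) (S.inc ⟨S.t w, S.t_mem w⟩) =
        S.inc ⟨_, S.tt y w⟩ := by
      apply Subtype.ext
      simp only [Subgroup.coe_mul, Subgroup.coe_inv, gam_coe, cj_coe, inc_coe, add_comm w y]
      group
    rw [e, bt_inc]
  rw [bt_mul_right, bt_mul_right, bt_inv_right] at h0
  rw [← sub_eq_zero, ← h0]; abel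

theorem SS_l (h : S.H) (x y w : V) : S.SS h (S.hp (S.gam x y)) w =
    -(S.NN h x y + S.NN h (x + y) w - S.NN h y w - S.NN h x (y + w)) := by
  unfold SS NN
  rw [inc_hp, cj_mul, cj_inv, bt_mul_right, bt_inv_right, S.bt_cjC _ _ _ (S.qc_mem _), bt_qc]
  have e : S.cj (S.lam w) (S.gam x y) = (S.gam (x + y) w)⁻¹ * S.gam x (y + w) * S.gam y w := by
    apply Subtype.ext
    simp only [Subgroup.coe_mul, Subgroup.coe_inv, gam_coe, cj_coe, add_assoc]
    group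
  rw [e, bt_mul_right, bt_mul_right, bt_inv_right]; abel

theorem SS_sh (v : V) (h g : S.H) (x : V) :
    S.SS (S.hp (S.cj (S.lam v) (S.inc h))) g x = S.SS h g (x + v) - S.SS h g v := by
  rw [SS_symm, S.SS_symm h g, S.SS_symm h g]
  unfold SS
  rw [inc_hp, cj_mul, cj_inv, bt_mul_right, bt_inv_right, S.bt_cjC _ _ _ (S.qc_mem _), bt_qc,
    cj_comp]
  have e : S.cj (S.lam v * S.lam x) (S.inc h) =
      S.cj (S.gam v x) (S.cj (S.lam (v + x)) (S.inc h)) := by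
    rw [cj_comp]
    congr 1
    simp only [gam_coe]; group
  rw [e, bt_cj_G1, add_comm v x]; abel

/-- The associated algebraic data. -/
noncomputable def dat : PData S.H V S.Z where
  N := S.NN
  S := S.SS
  t := fun v => ⟨S.t v, S.t_mem v⟩
  l := fun x y => S.hp (S.gam x y)
  sh := fun v h => S.hp (S.cj (S.lam v) (S.inc h))
  symm := S.SS_symm
  S_t := S.SS_t
  S_l := S.SS_l
  S_sh := S.SS_sh

end Setup

end Pool.Agent.MP_f8f515_al
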