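import Mathlib
import Pool.Agent.MP_f8f515_al.Setup

set_option autoImplicit false

open scoped commutatorElement

namespace Pool.Agent.MP_f8f515_al

namespace Setup

variable {G V : Type*} [Group G] [AddCommGroup V] (S : Setup G V)

section count

variable [Finite G]

theorem card_ge {a b c : ℕ} (ha : 2 ^ a ≤ S.G1.index)
    (hb : 2 ^ b ≤ (Subgroup.center ↥S.G1).index)
    (hc : 2 ^ c ≤ Nat.card (Subgroup.center ↥S.G1)) : 2 ^ (a + b + c) ≤ Nat.card G := by
  rw [← S.G1.card_mul_index, ← (Subgroup.center ↥S.G1).card_mul_index, pow_add, pow_add]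
  calc 2 ^ a * 2 ^ b * 2 ^ c = 2 ^ c * 2 ^ b * 2 ^ a := by ring
    _ ≤ _ := by gcongr

/-- The `V`-part of the count. -/
theorem index_G1_ge {Z ι : Type*} [AddCommGroup Z] [Fintype ι] [DecidableEq ι]
    (x : ι → V) (χ : ι → V → Z)
    (hadd : ∀ i a b, χ i (a + b) = χ i a + χ i b)
    (h1 : ∀ i j, i ≠ j → χ i (x j) = 0)
    (h2 : ∀ i, χ i (x i) ≠ 0) : 2 ^ (Fintype.card ι) ≤ S.G1.index := by
  have h0 : ∀ i, χ i 0 = 0 := by
    intro i
    have := hadd i 0 0
    rw [add_zero] at this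
    exact left_eq_add.mp this
  refine two_pow_le_index S.G1 (fun i => S.lam (x i)) (fun i g => χ i (S.pr g)) ?_ ?_ ?_ ?_
  · intro i a b
    rw [S.pr_mul, hadd]
  · intro i b hb
    rw [(S.mem_G1 b).mp hb, h0]
  · intro i j hij
    rw [S.pr_lam]; exact h1 i j hij
  · intro i
    rw [S.pr_lam]; exact h2 i

/-- The `G1 / center` part of the count. -/
theorem index_center_ge {n : ℕ} (h : Fin n → S.H) (c : Fin n → S.G1) (hc : ∀ i, (c i : G) ∈ S.C)
    (h1 : ∀ i j, i ≠ j → S.bt (S.inc (h j)) (c i) = 0)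
    (h2 : ∀ i, S.bt (S.inc (h i)) (c i) ≠ 0) :
    2 ^ (n + n) ≤ (Subgroup.center ↥S.G1).index := by
  have := two_pow_le_index (Subgroup.center ↥S.G1)
    (Sum.elim (fun i => S.inc (h i)) c : Fin n ⊕ Fin n → S.G1)
    (Sum.elim (fun i g => S.bt g (c i)) (fun i g => S.bt (S.inc (h i)) g) :
      Fin n ⊕ Fin n → S.G1 → S.Z) ?_ ?_ ?_ ?_
  · simpa using this
  · rintro (i | i) a b
    · exact S.bt_mul_left _ _ _
    · exact S.bt_mul_right _ _ _
  · rintro (i | i) b hb
    · show S.bt b (c i) = 0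
      rw [bt_eq_zero_iff]
      exact (Subgroup.mem_center_iff.mp hb (c i)).symm
    · show S.bt (S.inc (h i)) b = 0
      rw [bt_eq_zero_iff]
      exact Subgroup.mem_center_iff.mp hb _
  · rintro (i | i) (j | j) hij
    · exact h1 i j (fun e => hij (by rw [e]))
    · exact S.bt_CC _ _ (hc j) (hc i)
    · exact S.bt_inc _ _
    · exact h1 j i (fun e => hij (by rw [e]))
  · rintro (i | i)
    · exact h2 i
    · exact h2 i

theorem card_center_ge_two (z : S.Z) (hz : z ≠ 0) :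
    2 ^ 1 ≤ Nat.card (Subgroup.center ↥S.G1) := by
  have : Nontrivial (Subgroup.center ↥S.G1) := ⟨S.unZ z, 1, fun h => hz (by
    have : S.mkZ (S.unZ z) = S.mkZ 1 := by rw [h]
    exact this)⟩
  have := Finite.one_lt_card (α := Subgroup.center ↥S.G1)
  omega

end count

end Setup

/-- Alternating trilinear maps. -/
structure Alt3 {V Z : Type*} [AddCommGroup V] [AddCommGroup Z] (f : V → V → V → Z) : Prop where
  a1 : ∀ x x' y z, f (x + x') y z = f x y z + f x' y z
  a2 : ∀ x y y' z, f x (y + y') z = f x y z + f x y' z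
  a3 : ∀ x y z z', f x y (z + z') = f x y z + f x y z'
  s12 : ∀ x y z, f x y z = - f y x z
  s23 : ∀ x y z, f x y z = - f x z y
  z12 : ∀ x y, f x x y = 0
  z13 : ∀ x y, f x y x = 0
  z23 : ∀ x y, f x y y = 0

/-- Alternating quadrilinear maps. -/
structure Alt4 {V Z : Type*} [AddCommGroup V] [AddCommGroup Z] (f : V → V → V → V → Z) :
    Prop where
  a1 : ∀ x x' y z w, f (x + x') y z w = f x y z w + f x' y z w
  a2 : ∀ x y y' z w, f x (y + y') z w = f x y z w + f x y' z w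
  a3 : ∀ x y z z' w, f x y (z + z') w = f x y z w + f x y z' w
  a4 : ∀ x y z w w', f x y z (w + w') = f x y z w + f x y z w'
  s12 : ∀ x y z w, f x y z w = - f y x z w
  s23 : ∀ x y z w, f x y z w = - f x z y w
  s34 : ∀ x y z w, f x y z w = - f x y w z
  z12 : ∀ x y z, f x x y z = 0
  z13 : ∀ x y z, f x y x z = 0
  z14 : ∀ x y z, f x y z x = 0
  z23 : ∀ x y z, f x y y z = 0
  z24 : ∀ x y z, f x y z y = 0
  z34 : ∀ x y z, f x y z z = 0

/-- Alternating pentalinear maps. -/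
structure Alt5 {V Z : Type*} [AddCommGroup V] [AddCommGroup Z] (f : V → V → V → V → V → Z) :
    Prop where
  a1 : ∀ x x' y z w v, f (x + x') y z w v = f x y z w v + f x' y z w v
  a2 : ∀ x y y' z w v, f x (y + y') z w v = f x y z w v + f x y' z w v
  a3 : ∀ x y z z' w v, f x y (z + z') w v = f x y z w v + f x y z' w v
  a4 : ∀ x y z w w' v, f x y z (w + w') v = f x y z w v + f x y z w' v
  a5 : ∀ x y z w v v', f x y z w (v + v') = f x y z w v + f x y z w v'
  s12 : ∀ x y z w v, f x y z w v = - f y x z w v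
  s23 : ∀ x y z w v, f x y z w v = - f x z y w v
  s34 : ∀ x y z w v, f x y z w v = - f x y w z v
  s45 : ∀ x y z w v, f x y z w v = - f x y z v w
  z12 : ∀ x y z w, f x x y z w = 0
  z13 : ∀ x y z w, f x y x z w = 0
  z14 : ∀ x y z w, f x y z x w = 0
  z15 : ∀ x y z w, f x y z w x = 0
  z23 : ∀ x y z w, f x y y z w = 0
  z24 : ∀ x y z w, f x y z y w = 0
  z25 : ∀ x y z w, f x y z w y = 0
  z34 : ∀ x y z w, f x y z z w = 0
  z35 : ∀ x y z w, f x y z w z = 0
  z45 : ∀ x y z w, f x y z w w = 0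

namespace Setup

variable {G V : Type*} [Group G] [AddCommGroup V] (S : Setup G V)

section count2

variable [Finite G]

theorem index_G1_alt3 {Z : Type*} [AddCommGroup Z] {f : V → V → V → Z} (hf : Alt3 f) (a b c : V)
    (hne : f a b c ≠ 0) : 2 ^ 3 ≤ S.G1.index :=
  S.index_G1_ge (![a, b, c])
    (![fun v => f v b c, fun v => f a v c, fun v => f a b v])
    (by
      intro i x y
      fin_cases i
      · exact hf.a1 _ _ _ _
      · exact hf.a2 _ _ _ _
      · exact hf.a3 _ _ _ _)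
    (by
      intro i j hij
      fin_cases i <;> fin_cases j <;>
        first
        | exact absurd rfl hij
        | exact hf.z12 _ _
        | exact hf.z13 _ _
        | exact hf.z23 _ _)
    (by
      intro i
      fin_cases i <;> exact hne)

theorem index_G1_alt4 {Z : Type*} [AddCommGroup Z] {f : V → V → V → V → Z} (hf : Alt4 f)
    (a b c d : V) (hne : f a b c d ≠ 0) : 2 ^ 4 ≤ S.G1.index :=
  S.index_G1_ge (![a, b, c, d])
    (![fun v => f v b c d, fun v => f a v c d, fun v => f a b v d, fun v => f a b c v])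
    (by
      intro i x y
      fin_cases i
      · exact hf.a1 _ _ _ _ _
      · exact hf.a2 _ _ _ _ _
      · exact hf.a3 _ _ _ _ _
      · exact hf.a4 _ _ _ _ _)
    (by
      intro i j hij
      fin_cases i <;> fin_cases j <;>
        first
        | exact absurd rfl hij
        | exact hf.z12 _ _ _
        | exact hf.z13 _ _ _
        | exact hf.z14 _ _ _
        | exact hf.z23 _ _ _
        | exact hf.z24 _ _ _
        | exact hf.z34 _ _ _)
    (by
      intro i
      fin_cases i <;> exact hne)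

theorem index_G1_alt5 {Z : Type*} [AddCommGroup Z] {f : V → V → V → V → V → Z} (hf : Alt5 f)
    (a b c d e : V) (hne : f a b c d e ≠ 0) : 2 ^ 5 ≤ S.G1.index :=
  S.index_G1_ge (![a, b, c, d, e])
    (![fun v => f v b c d e, fun v => f a v c d e, fun v => f a b v d e, fun v => f a b c v e,
      fun v => f a b c d v])
    (by
      intro i x y
      fin_cases i
      · exact hf.a1 _ _ _ _ _ _
      · exact hf.a2 _ _ _ _ _ _
      · exact hf.a3 _ _ _ _ _ _
      · exact hf.a4 _ _ _ _ _ _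
      · exact hf.a5 _ _ _ _ _ _)
    (by
      intro i j hij
      fin_cases i <;> fin_cases j <;>
        first
        | exact absurd rfl hij
        | exact hf.z12 _ _ _ _
        | exact hf.z13 _ _ _ _
        | exact hf.z14 _ _ _ _
        | exact hf.z15 _ _ _ _
        | exact hf.z23 _ _ _ _
        | exact hf.z24 _ _ _ _
        | exact hf.z25 _ _ _ _
        | exact hf.z34 _ _ _ _
        | exact hf.z35 _ _ _ _
        | exact hf.z45 _ _ _ _)
    (by
      intro i
      fin_cases i <;> exact hne)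

/-- An element of `C` pairing with `h` as the conjugate of `l` does. -/
noncomputable def cl (g : S.H) (w : V) : S.G1 := S.qc (S.cj (S.lam w) (S.inc g))

theorem cl_mem (g : S.H) (w : V) : (S.cl g w : G) ∈ S.C := S.qc_mem _

theorem bt_cl (h g : S.H) (w : V) : S.bt (S.inc h) (S.cl g w) = S.SS h g w := by
  unfold cl
  rw [bt_qc]; rfl


theorem index_center_fin3 (h : Fin 3 → S.H) (c : Fin 3 → S.G1) (hc : ∀ i, (c i : G) ∈ S.C)
    (h1 : ∀ i j, i ≠ j → S.bt (S.inc (h j)) (c i) = 0)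
    (h2 : ∀ i, S.bt (S.inc (h i)) (c i) ≠ 0) :
    2 ^ 6 ≤ (Subgroup.center ↥S.G1).index := S.index_center_ge h c hc h1 h2

theorem index_center_fin4 (h : Fin 4 → S.H) (c : Fin 4 → S.G1) (hc : ∀ i, (c i : G) ∈ S.C)
    (h1 : ∀ i j, i ≠ j → S.bt (S.inc (h j)) (c i) = 0)
    (h2 : ∀ i, S.bt (S.inc (h i)) (c i) ≠ 0) :
    2 ^ 8 ≤ (Subgroup.center ↥S.G1).index := S.index_center_ge h c hc h1 h2

theorem gram4 {f : V → V → V → V → S.Z} (hf : Alt4 f) (T : V → S.H) (Cc : V → V → V → S.G1)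
    (hC : ∀ x y w, (Cc x y w : G) ∈ S.C)
    (hg : ∀ x y w z, S.bt (S.inc (T z)) (Cc x y w) = - f x y w z)
    (a b c d : V) (hne : f a b c d ≠ 0) : 2 ^ 8 ≤ (Subgroup.center ↥S.G1).index := by
  have n3 : f a b d c ≠ 0 := by rw [hf.s34]; exact neg_ne_zero.mpr hne
  have n2 : f a c d b ≠ 0 := by
    rw [hf.s34, hf.s23, neg_neg]; exact hne
  have n1 : f b c d a ≠ 0 := by
    rw [hf.s34, hf.s23, hf.s12, neg_neg]; exact neg_ne_zero.mpr hne
  refine S.index_center_fin4 ![T a, T b, T c, T d] ![Cc b c d, Cc a c d, Cc a b d, Cc a b c]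
    ?_ ?_ ?_
  · intro i
    fin_cases i <;> exact hC _ _ _
  · intro i j hij
    fin_cases i <;> fin_cases j <;>
      first
      | exact absurd rfl hij
      | exact (hg _ _ _ _).trans (neg_eq_zero.mpr (hf.z14 _ _ _))
      | exact (hg _ _ _ _).trans (neg_eq_zero.mpr (hf.z24 _ _ _))
      | exact (hg _ _ _ _).trans (neg_eq_zero.mpr (hf.z34 _ _ _))
  · intro i
    fin_cases i
    · exact fun h => neg_ne_zero.mpr n1 ((hg _ _ _ _).symm.trans h)
    · exact fun h => neg_ne_zero.mpr n2 ((hg _ _ _ _).symm.trans h)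
    · exact fun h => neg_ne_zero.mpr n3 ((hg _ _ _ _).symm.trans h)
    · exact fun h => neg_ne_zero.mpr hne ((hg _ _ _ _).symm.trans h)

theorem gram5 {f : V → V → V → V → V → S.Z} (hf : Alt5 f) (T : V → V → S.H)
    (Cc : V → V → V → S.G1) (hC : ∀ x y w, (Cc x y w : G) ∈ S.C)
    (hg : ∀ x y w u v, S.bt (S.inc (T u v)) (Cc x y w) = - f u v x y w)
    (a b c d e : V) (hne : f a b c d e ≠ 0) : 2 ^ 8 ≤ (Subgroup.center ↥S.G1).index := by
  have n2 : f a c b d e ≠ 0 := by rw [hf.s23]; exact neg_ne_zero.mpr hne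
  have n3 : f a d b c e ≠ 0 := by
    rw [hf.s23, hf.s34, neg_neg]; exact hne
  have n4 : f a e b c d ≠ 0 := by
    rw [hf.s23, hf.s34, hf.s45, neg_neg]; exact neg_ne_zero.mpr hne
  refine S.index_center_fin4 ![T a b, T a c, T a d, T a e]
    ![Cc c d e, Cc b d e, Cc b c e, Cc b c d] ?_ ?_ ?_
  · intro i
    fin_cases i <;> exact hC _ _ _
  · intro i j hij
    fin_cases i <;> fin_cases j <;>
      first
      | exact absurd rfl hij
      | exact (hg _ _ _ _ _).trans (neg_eq_zero.mpr (hf.z23 _ _ _ _))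
      | exact (hg _ _ _ _ _).trans (neg_eq_zero.mpr (hf.z24 _ _ _ _))
      | exact (hg _ _ _ _ _).trans (neg_eq_zero.mpr (hf.z25 _ _ _ _))
  · intro i
    fin_cases i
    · exact fun h => neg_ne_zero.mpr hne ((hg _ _ _ _ _).symm.trans h)
    · exact fun h => neg_ne_zero.mpr n2 ((hg _ _ _ _ _).symm.trans h)
    · exact fun h => neg_ne_zero.mpr n3 ((hg _ _ _ _ _).symm.trans h)
    · exact fun h => neg_ne_zero.mpr n4 ((hg _ _ _ _ _).symm.trans h)

theorem gram3 {f : V → V → V → S.Z} (hf : Alt3 f) (T : V → S.H)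
    (Cc : V → V → S.G1) (hC : ∀ x y, (Cc x y : G) ∈ S.C)
    (hg : ∀ x y z, S.bt (S.inc (T z)) (Cc x y) = f x y z)
    (a b c : V) (hne : f a b c ≠ 0) : 2 ^ 6 ≤ (Subgroup.center ↥S.G1).index := by
  have n2 : f a c b ≠ 0 := by rw [hf.s23]; exact neg_ne_zero.mpr hne
  have n3 : f b c a ≠ 0 := by
    rw [hf.s23, hf.s12, neg_neg]; exact hne
  refine S.index_center_fin3 ![T a, T b, T c]
    ![Cc b c, Cc a c, Cc a b] ?_ ?_ ?_
  · intro i
    fin_cases i <;> exact hC _ _
  · intro i j hij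
    fin_cases i <;> fin_cases j <;>
      first
      | exact absurd rfl hij
      | exact (hg _ _ _).trans (hf.z13 _ _)
      | exact (hg _ _ _).trans (hf.z23 _ _)
  · intro i
    fin_cases i
    · exact fun h => n3 ((hg _ _ _).symm.trans h)
    · exact fun h => n2 ((hg _ _ _).symm.trans h)
    · exact fun h => hne ((hg _ _ _).symm.trans h)

end count2

theorem alt4_F : Alt4 S.dat.F where
  a1 := S.dat.F_add1
  a2 := S.dat.F_add2
  a3 := S.dat.F_add3
  a4 := S.dat.F_add4
  s12 := S.dat.F_12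
  s23 := S.dat.F_23
  s34 := S.dat.F_34
  z12 := S.dat.F_12z
  z13 := S.dat.F_13z
  z14 := S.dat.F_14z
  z23 := S.dat.F_23z
  z24 := S.dat.F_24z
  z34 := S.dat.F_34z

theorem alt5_P (hF : ∀ x y w z, S.dat.F x y w z = 0) : Alt5 S.dat.P where
  a1 := S.dat.P_add1 hF
  a2 := S.dat.P_add2 hF
  a3 := S.dat.P_add3 hF
  a4 := S.dat.P_add4 hF
  a5 := S.dat.P_add5 hF
  s12 := S.dat.P_12 hF
  s23 := S.dat.P_23 hF
  s34 := S.dat.P_34 hF
  s45 := S.dat.P_45 hF
  z12 := S.dat.P_12z hF
  z13 := S.dat.P_13z hF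
  z14 := S.dat.P_14z hF
  z15 := S.dat.P_15z hF
  z23 := S.dat.P_23z hF
  z24 := S.dat.P_24z hF
  z25 := S.dat.P_25z hF
  z34 := S.dat.P_34z hF
  z35 := S.dat.P_35z hF
  z45 := S.dat.P_45z hF

theorem b_23' (hF : ∀ x y w z, S.dat.F x y w z = 0) (x y z : V) :
    S.dat.b x y z = - S.dat.b x z y := by
  have h : S.dat.b x (y + z) (y + z) = 0 := S.dat.b_23z _ _
  rw [S.dat.b_add2 hF, S.dat.b_add3 hF, S.dat.b_add3 hF, S.dat.b_23z, S.dat.b_23z, zero_add,
    add_zero] at h
  exact eq_neg_of_add_eq_zero_left h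

theorem alt3_b (hF : ∀ x y w z, S.dat.F x y w z = 0) : Alt3 S.dat.b where
  a1 := S.dat.b_add1 hF
  a2 := S.dat.b_add2 hF
  a3 := S.dat.b_add3 hF
  s12 := S.dat.b_12
  s23 := S.b_23' hF
  z12 := S.dat.b_12z
  z13 := S.dat.b_13z
  z23 := S.dat.b_23z

section cases

variable [Finite G]

theorem caseF (a b c d : V) (hne : S.dat.F a b c d ≠ 0) : 2 ^ 13 ≤ Nat.card G := by
  refine S.card_ge (a := 4) (b := 8) (c := 1) (S.index_G1_alt4 S.alt4_F a b c d hne) ?_
    (S.card_center_ge_two _ hne)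
  refine S.gram4 S.alt4_F S.dat.t (fun x y w => S.cl (S.dat.l x y) w)
    (fun x y w => S.cl_mem _ _) ?_ a b c d hne
  intro x y w z
  rw [bt_cl]
  exact S.dat.Sl _ _ _ _

theorem caseP (hF : ∀ x y w z, S.dat.F x y w z = 0) (a b c d e : V)
    (hne : S.dat.P a b c d e ≠ 0) : 2 ^ 13 ≤ Nat.card G := by
  refine S.card_ge (a := 5) (b := 8) (c := 0) (S.index_G1_alt5 (S.alt5_P hF) a b c d e hne) ?_
    Nat.card_pos
  refine S.gram5 (S.alt5_P hF) S.dat.l (fun x y w => S.cl (S.dat.l x y) w)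
    (fun x y w => S.cl_mem _ _) ?_ a b c d e hne
  intro x y w u v
  rw [bt_cl]
  exact S.dat.Sl _ _ _ _

end cases

end Setup

end Pool.Agent.MP_f8f515_al
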