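import Mathlib
import Pool.Agent.MP_f8f515_al.Bound

set_option autoImplicit false

open scoped commutatorElement

namespace Pool.Agent.MP_f8f515_al

namespace Setup

variable {G V : Type*} [Group G] [AddCommGroup V] (S : Setup G V)

theorem cjZ_SS (u x : V) (h g : S.H) :
    S.cjZ (S.lam u) (S.SS h g x) = S.SS h g (x + u) - S.SS h g u := by
  have e0 : S.SS h g x = S.bt (S.inc h) (S.qc (S.cj (S.lam x) (S.inc g))) := by
    rw [bt_qc]; rfl
  rw [e0, cjZ_bt, S.bt_cjC _ _ _ (S.qc_mem _), S.qc_hp (S.cj (S.lam u) (S.inc h)), bt_mul_left,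
    S.bt_CC _ _ (S.qc_mem _) (S.qc_mem _), zero_add, bt_qc]
  exact S.SS_sh u h g x

theorem cjZ_zero (u : G) : S.cjZ u 0 = 0 := by
  have := S.cjZ_add u 0 0
  rw [add_zero] at this
  exact left_eq_add.mp this

theorem cjZ_neg (u : G) (z : S.Z) : S.cjZ u (-z) = - S.cjZ u z := by
  have := S.cjZ_add u (-z) z
  rw [neg_add_cancel, cjZ_zero] at this
  exact (neg_eq_of_add_eq_zero_left this.symm).symm

theorem cjZ_b (hF : ∀ x y w z, S.dat.F x y w z = 0) (u x y z : V) :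
    S.cjZ (S.lam u) (S.dat.b x y z) = S.dat.b x y z := by
  have h := S.cjZ_SS u x (S.dat.t z) (S.dat.t y)
  have h2 : S.cjZ (S.lam u) (S.dat.b x y z) = S.dat.b (x + u) y z - S.dat.b u y z := h
  rw [h2, S.dat.b_add1 hF, add_sub_cancel_right]

/-- A value invariant under all conjugations by `lam u` is central in `G`. -/
theorem central_of_cjZ (z : S.Z) (hz : ∀ u, S.cjZ (S.lam u) z = z) (g : G) :
    g * ((S.unZ z : S.G1) : G) = ((S.unZ z : S.G1) : G) * g := by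
  set k : S.G1 := (S.unZ z : S.G1) with hk
  have h1 : ∀ u, (S.lam u)⁻¹ * (k : G) * S.lam u = k := by
    intro u
    have := congrArg (fun y => ((S.unZ y : S.G1) : G)) (hz u)
    exact this
  have hg1 : (S.lam (S.pr g))⁻¹ * g ∈ S.G1 := by
    rw [mem_G1, S.pr_mul, S.pr_inv, S.pr_lam]; abel
  have h2 := Subgroup.mem_center_iff.mp (S.unZ z).2 ⟨_, hg1⟩
  have h3 : (S.lam (S.pr g))⁻¹ * g * (k : G) = k * ((S.lam (S.pr g))⁻¹ * g) :=
    congrArg Subtype.val h2
  have h4 : S.lam (S.pr g) * (k : G) = k * S.lam (S.pr g) := by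
    have := h1 (S.pr g)
    rw [mul_assoc, inv_mul_eq_iff_eq_mul] at this
    exact this.symm
  calc g * (k : G) = S.lam (S.pr g) * ((S.lam (S.pr g))⁻¹ * g * (k : G)) := by group
    _ = (S.lam (S.pr g) * k) * ((S.lam (S.pr g))⁻¹ * g) := by rw [h3]; group
    _ = k * g := by rw [h4]; group

/-- The values lying in `H`. -/
def NZ : AddSubgroup S.Z where
  carrier := {z | ((S.unZ z : S.G1) : G) ∈ S.H}
  add_mem' := by
    intro a b ha hb
    exact mul_mem (S := Subgroup G) ha hb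
  zero_mem' := one_mem S.H
  neg_mem' := by
    intro a ha
    exact inv_mem (S := Subgroup G) ha

theorem mem_NZ (z : S.Z) : z ∈ S.NZ ↔ ((S.unZ z : S.G1) : G) ∈ S.H := Iff.rfl

theorem exists_T (c : S.G1) (hc : (c : G) ∈ S.C) : ∃ T : Subgroup.center ↥S.G1,
    S.mkZ T ∈ S.NZ ∧ ∀ v, S.cjZ (S.lam v) (S.mkZ T) + S.bt (S.inc (S.dat.t v)) c ∈ S.NZ := by
  obtain ⟨T, hT, hcen, hv⟩ := S.tc c hc
  refine ⟨⟨⟨T, S.H_le T hT⟩, ?_⟩, hT, ?_⟩
  · rw [Subgroup.mem_center_iff]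
    intro g
    exact Subtype.ext (hcen g g.2)
  · intro v
    exact hv v

theorem card_center_ge4 [Finite G] (hF : ∀ x y w z, S.dat.F x y w z = 0) (a b c : V)
    (hne : S.dat.b a b c ≠ 0) : 2 ^ 4 ≤ Nat.card (Subgroup.center ↥S.G1) := by
  have hf := S.alt3_b hF
  have hcl : ∀ x y z, S.bt (S.inc (S.dat.t z)) (S.cl (S.dat.t y) x) = S.dat.b x y z := by
    intro x y z
    rw [bt_cl]; rfl
  -- k0 is not in NZ
  have hk0 : S.dat.b a b c ∉ S.NZ := by
    intro hmem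
    have := S.core _ hmem (S.central_of_cjZ _ (fun u => S.cjZ_b hF u a b c))
    apply hne
    have h2 : S.unZ (S.dat.b a b c) = 1 := Subtype.ext (Subtype.ext this)
    exact h2
  obtain ⟨T1, hT1, hT1'⟩ := S.exists_T (S.cl (S.dat.t c) b) (S.cl_mem _ _)
  obtain ⟨T2, hT2, hT2'⟩ := S.exists_T (S.cl (S.dat.t c) a) (S.cl_mem _ _)
  obtain ⟨T3, hT3, hT3'⟩ := S.exists_T (S.cl (S.dat.t b) a) (S.cl_mem _ _)
  simp only [hcl] at hT1' hT2' hT3'
  let W := S.Z ⧸ S.NZ
  let ε : S.Z → W := fun z => (QuotientAddGroup.mk z : S.Z ⧸ S.NZ)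
  have hε0 : ∀ z, ε z = 0 ↔ z ∈ S.NZ := fun z => QuotientAddGroup.eq_zero_iff z
  have hεadd : ∀ x y, ε (x + y) = ε x + ε y := fun x y => rfl
  have hεneg : ∀ x, ε (-x) = - ε x := fun x => rfl
  have hεsub : ∀ x y, ε (x - y) = ε x - ε y := fun x y => rfl
  have e1 : S.dat.b b c a = S.dat.b a b c := by
    rw [hf.s23, hf.s12, neg_neg]
  have e2 : S.dat.b a c b = - S.dat.b a b c := by
    rw [hf.s23]
  have hT : ∀ (T : Subgroup.center ↥S.G1) (z : S.Z) (v : V), S.mkZ T ∈ S.NZ →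
      S.cjZ (S.lam v) (S.mkZ T) + z ∈ S.NZ →
      ε (S.cjZ (S.lam v) (S.mkZ T) - S.mkZ T) = - ε z := by
    intro T z v h1 h2
    rw [hεsub, (hε0 _).mpr h1, sub_zero]
    have := (hε0 _).mpr h2
    rw [hεadd] at this
    exact eq_neg_of_add_eq_zero_left this
  have key := two_pow_le_index (⊥ : Subgroup (Subgroup.center ↥S.G1))
    (![S.unZ (S.dat.b a b c), T1, T2, T3])
    (![fun k => ε (S.mkZ k), fun k => ε (S.cjZ (S.lam a) (S.mkZ k) - S.mkZ k),
      fun k => ε (S.cjZ (S.lam b) (S.mkZ k) - S.mkZ k),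
      fun k => ε (S.cjZ (S.lam c) (S.mkZ k) - S.mkZ k)]) ?_ ?_ ?_ ?_
  · rw [Subgroup.index_bot] at key
    simpa using key
  · have aux : ∀ v x y, ε (S.cjZ (S.lam v) (S.mkZ (x * y)) - S.mkZ (x * y)) =
        ε (S.cjZ (S.lam v) (S.mkZ x) - S.mkZ x) + ε (S.cjZ (S.lam v) (S.mkZ y) - S.mkZ y) := by
      intro v x y
      rw [mkZ_mul, cjZ_add, ← hεadd]; congr 1; abel
    intro i x y
    fin_cases i
    · exact rfl
    · exact aux _ _ _
    · exact aux _ _ _
    · exact aux _ _ _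
  · have aux : ∀ v, ε (S.cjZ (S.lam v) (S.mkZ 1) - S.mkZ 1) = 0 := by
      intro v
      rw [mkZ_one, cjZ_zero, sub_zero]; rfl
    intro i x hx
    rw [Subgroup.mem_bot] at hx
    subst hx
    fin_cases i
    · exact rfl
    · exact aux _
    · exact aux _
    · exact aux _
  · have auxk : ∀ v, ε (S.cjZ (S.lam v) (S.mkZ (S.unZ (S.dat.b a b c))) -
        S.mkZ (S.unZ (S.dat.b a b c))) = 0 := by
      intro v
      rw [mkZ_unZ, S.cjZ_b hF, sub_self]; rfl
    have z0 : ∀ z, z = 0 → - ε z = 0 := by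
      intro z hz
      rw [hz]; exact neg_zero
    intro i j hij
    fin_cases i <;> fin_cases j
    · exact absurd rfl hij
    · exact (hε0 _).mpr hT1
    · exact (hε0 _).mpr hT2
    · exact (hε0 _).mpr hT3
    · exact auxk _
    · exact absurd rfl hij
    · exact (hT T2 _ a hT2 (hT2' a)).trans (z0 _ (hf.z13 _ _))
    · exact (hT T3 _ a hT3 (hT3' a)).trans (z0 _ (hf.z13 _ _))
    · exact auxk _
    · exact (hT T1 _ b hT1 (hT1' b)).trans (z0 _ (hf.z13 _ _))
    · exact absurd rfl hij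
    · exact (hT T3 _ b hT3 (hT3' b)).trans (z0 _ (hf.z23 _ _))
    · exact auxk _
    · exact (hT T1 _ c hT1 (hT1' c)).trans (z0 _ (hf.z23 _ _))
    · exact (hT T2 _ c hT2 (hT2' c)).trans (z0 _ (hf.z23 _ _))
    · exact absurd rfl hij
  · have hk : ε (S.dat.b a b c) ≠ 0 := fun h => hk0 ((hε0 _).mp h)
    intro i
    fin_cases i
    · exact hk
    · intro h
      have h2 := (hT T1 _ a hT1 (hT1' a)).symm.trans h
      rw [e1] at h2
      exact hk (neg_eq_zero.mp h2)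
    · intro h
      have h2 := (hT T2 _ b hT2 (hT2' b)).symm.trans h
      rw [e2, hεneg, neg_neg] at h2
      exact hk h2
    · intro h
      have h2 := (hT T3 _ c hT3 (hT3' c)).symm.trans h
      exact hk (neg_eq_zero.mp h2)

theorem caseB [Finite G] (hF : ∀ x y w z, S.dat.F x y w z = 0) (a b c : V)
    (hne : S.dat.b a b c ≠ 0) : 2 ^ 13 ≤ Nat.card G := by
  refine S.card_ge (a := 3) (b := 6) (c := 4) (S.index_G1_alt3 (S.alt3_b hF) a b c hne) ?_
    (S.card_center_ge4 hF a b c hne)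
  refine S.gram3 (S.alt3_b hF) S.dat.t (fun x y => S.cl (S.dat.t y) x)
    (fun x y => S.cl_mem _ _) ?_ a b c hne
  intro x y z
  rw [bt_cl]
  rfl

end Setup

end Pool.Agent.MP_f8f515_al
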