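import Mathlib
import Pool.Agent.MP_f8f515_al.CaseB

set_option autoImplicit false

open scoped commutatorElement

namespace Pool.Agent.MP_f8f515_al

namespace Setup

variable {G V : Type*} [Group G] [AddCommGroup V] (S : Setup G V)

/-- The generation lemma: `H` is generated by its elements central in `G1` and the elements
`t`, `l`, `sh t`. -/
theorem H_le_of (Θ : Subgroup G)
    (hcen : ∀ h ∈ S.H, (∀ a, S.pr a = 0 → a * h = h * a) → h ∈ Θ)
    (hΘ : Θ ≤ S.H)
    (hl : ∀ x y, ((S.dat.l x y : S.H) : G) ∈ Θ)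
    (hsh : ∀ v w, ((S.dat.sh v (S.dat.t w) : S.H) : G) ∈ Θ) : S.H ≤ Θ := by
  haveI := S.C_normal
  set D : Subgroup G := S.C ⊔ Θ with hD
  have hDC : S.C ≤ D := le_sup_left
  have hDΘ : Θ ≤ D := le_sup_right
  have hD1 : D ≤ S.G1 := sup_le (fun c hc => S.C_le c hc) (fun h hh => S.H_le h (hΘ hh))
  have hgam : ∀ x y, (S.gam x y : G) ∈ D := by
    intro x y
    rw [S.qc_hp (S.gam x y)]
    exact mul_mem (hDC (S.qc_mem _)) (hDΘ (hl x y))
  have hcjt : ∀ v w, (S.lam v)⁻¹ * S.t w * S.lam v ∈ D := by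
    intro v w
    have e : (S.cj (S.lam v) (S.inc (S.dat.t w)) : G) ∈ D := by
      rw [S.qc_hp (S.cj (S.lam v) (S.inc (S.dat.t w)))]
      exact mul_mem (hDC (S.qc_mem _)) (hDΘ (hsh v w))
    exact e
  have hcjc : ∀ v, ∀ c ∈ S.C, (S.lam v)⁻¹ * c * S.lam v ∈ D := by
    intro v c hc
    have := S.C_normal.conj_mem c hc (S.lam v)⁻¹
    rw [inv_inv] at this
    exact hDC this
  have hgood : ∀ g : G, ∃ v, (S.lam v)⁻¹ * g ∈ D := by
    intro g
    have hg : g ∈ Subgroup.closure (Set.range S.lam ∪ Set.range S.t ∪ (S.C : Set G)) := by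
      rw [S.gen]; trivial
    induction hg using Subgroup.closure_induction_left with
    | one =>
      refine ⟨0, ?_⟩
      have := inv_mem (hgam 0 0)
      rw [gam_coe, add_zero, inv_mul_cancel, one_mul] at this
      rwa [mul_one]
    | mul_left x hx y hy ih =>
      obtain ⟨v, hv⟩ := ih
      rcases hx with (⟨u, rfl⟩ | ⟨w, rfl⟩) | hc
      · refine ⟨u + v, ?_⟩
        have := mul_mem (hgam u v) hv
        rw [gam_coe] at this
        convert this using 1
        group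
      · refine ⟨v, ?_⟩
        have := mul_mem (hcjt v w) hv
        convert this using 1
        group
      · refine ⟨v, ?_⟩
        have := mul_mem (hcjc v x hc) hv
        convert this using 1
        group
    | inv_mul_cancel x hx y hy ih =>
      obtain ⟨v, hv⟩ := ih
      rcases hx with (⟨u, rfl⟩ | ⟨w, rfl⟩) | hc
      · refine ⟨v - u, ?_⟩
        have := mul_mem (inv_mem (hgam u (v - u))) hv
        rw [gam_coe, add_sub_cancel] at this
        convert this using 1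
        group
      · refine ⟨v, ?_⟩
        have := mul_mem (inv_mem (hcjt v w)) hv
        convert this using 1
        group
      · refine ⟨v, ?_⟩
        have := mul_mem (inv_mem (hcjc v x hc)) hv
        convert this using 1
        group
  intro h hh
  obtain ⟨v, hv⟩ := hgood h
  have hv0 : v = 0 := by
    have := hD1 hv
    rw [mem_G1, S.pr_mul, S.pr_inv, S.pr_lam, S.H_le h hh, add_zero, neg_eq_zero] at this
    exact this
  subst hv0
  have h00 : S.lam 0 ∈ D := by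
    have := hgam 0 0
    rwa [gam_coe, add_zero, inv_mul_cancel, one_mul] at this
  have hhD : h ∈ D := by
    have := mul_mem h00 hv
    rwa [mul_inv_cancel_left] at this
  rw [hD, Subgroup.mem_sup_of_normal_left] at hhD
  obtain ⟨c, hc, θ, hθ, e⟩ := hhD
  have hcH : c ∈ S.H := by
    have : c = h * θ⁻¹ := by rw [← e]; group
    rw [this]
    exact mul_mem hh (inv_mem (hΘ hθ))
  have hcΘ : c ∈ Θ := by
    apply hcen c hcH
    intro a ha
    obtain ⟨c', hc', h', hh', e'⟩ := S.dec a ha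
    rw [e', mul_assoc, S.H_comm h' hh' c hcH, ← mul_assoc, S.C_comm c' hc' c hc, mul_assoc]
  rw [← e]
  exact mul_mem hcΘ hθ

/-- The subgroup of elements of `H` annihilated by all the functionals `SS · g v`, `g ∈ A`. -/
def ann (A : Set S.H) : Subgroup G where
  carrier := {h | ∃ hh : h ∈ S.H, ∀ g ∈ A, ∀ v, S.SS ⟨h, hh⟩ g v = 0}
  mul_mem' := by
    rintro a b ⟨ha, ha'⟩ ⟨hb, hb'⟩
    refine ⟨mul_mem ha hb, fun g hg v => ?_⟩
    have h1 := ha' g hg v
    have h2 := hb' g hg v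
    unfold SS at h1 h2 ⊢
    have e : S.inc ⟨a * b, mul_mem ha hb⟩ = S.inc ⟨a, ha⟩ * S.inc ⟨b, hb⟩ := Subtype.ext rfl
    rw [e, bt_mul_left, h1, h2, add_zero]
  one_mem' := ⟨one_mem _, fun g hg v => by
    unfold SS
    have e : S.inc ⟨1, one_mem _⟩ = 1 := Subtype.ext rfl
    rw [e, bt_one_left]⟩
  inv_mem' := by
    rintro a ⟨ha, ha'⟩
    refine ⟨inv_mem ha, fun g hg v => ?_⟩
    have h1 := ha' g hg v
    unfold SS at h1 ⊢
    have e : S.inc ⟨a⁻¹, inv_mem ha⟩ = (S.inc ⟨a, ha⟩)⁻¹ := Subtype.ext rfl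
    rw [e, bt_inv_left, h1, neg_zero]

theorem ann_mem_of (A : Set S.H) (h : S.H) (hh : ∀ g ∈ A, ∀ v, S.SS h g v = 0) :
    (h : G) ∈ S.ann A := ⟨h.2, hh⟩

theorem H_le_ann (A : Set S.H)
    (hl : ∀ x y, ∀ g ∈ A, ∀ v, S.SS (S.dat.l x y) g v = 0)
    (ht : ∀ w, ∀ g ∈ A, ∀ v, S.SS (S.dat.t w) g v = 0) : S.H ≤ S.ann A := by
  refine S.H_le_of (S.ann A) ?_ ?_ ?_ ?_
  · intro h hh hc
    refine ⟨hh, fun g _ v => ?_⟩
    unfold SS
    rw [bt_swap, neg_eq_zero]
    exact S.bt_cen _ _ hc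
  · rintro h ⟨hh, _⟩
    exact hh
  · intro x y
    exact S.ann_mem_of A _ (hl x y)
  · intro v w
    refine S.ann_mem_of A _ (fun g hg x => ?_)
    have := S.SS_sh v (S.dat.t w) g x
    rw [ht w g hg, ht w g hg, sub_zero] at this
    exact this

theorem caseD (hF : ∀ x y w z, S.dat.F x y w z = 0) (hP : ∀ u v x y w, S.dat.P u v x y w = 0)
    (hb : ∀ x y z, S.dat.b x y z = 0) :
    ∀ h ∈ S.H, ∀ g, S.pr g = 0 → g * h = h * g := by
  set A : Set S.H := Set.range S.dat.t ∪ {h | ∃ x y, h = S.dat.l x y} with hA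
  have tl : ∀ w x y v, S.SS (S.dat.t w) (S.dat.l x y) v = 0 := by
    intro w x y v
    have := S.dat.Sl (S.dat.t w) x y v
    rw [S.dat.hF' hF, neg_zero] at this
    exact this
  have ll : ∀ w z x y v, S.SS (S.dat.l w z) (S.dat.l x y) v = 0 := by
    intro w z x y v
    have h1 := S.dat.Sl (S.dat.l w z) x y v
    have h2 : S.dat.A (S.dat.l w z) x y v = 0 := hP w z x y v
    rw [h2, neg_zero] at h1
    exact h1
  have step1 : S.H ≤ S.ann A := by
    apply S.H_le_ann A
    · rintro x y g (⟨w, rfl⟩ | ⟨x', y', rfl⟩) v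
      · rw [SS_symm]; exact tl w x y v
      · exact ll _ _ _ _ _
    · rintro w g (⟨w', rfl⟩ | ⟨x', y', rfl⟩) v
      · exact hb v w' w
      · exact tl _ _ _ _
  have st1 : ∀ h : S.H, ∀ g ∈ A, ∀ v, S.SS h g v = 0 := by
    intro h g hg v
    obtain ⟨_, h2⟩ := step1 h.2
    exact h2 g hg v
  have step2 : S.H ≤ S.ann Set.univ := by
    apply S.H_le_ann
    · intro x y g _ v
      rw [SS_symm]
      exact st1 g _ (Or.inr ⟨x, y, rfl⟩) v
    · intro w g _ v
      rw [SS_symm]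
      exact st1 g _ (Or.inl ⟨w, rfl⟩) v
  have st2 : ∀ h g : S.H, ∀ v, S.SS h g v = 0 := by
    intro h g v
    obtain ⟨_, h2⟩ := step2 h.2
    exact h2 g trivial v
  intro h hh g hg
  have hg' := S.ncl g hg
  have hle : Subgroup.normalClosure (S.H : Set G) ≤ Subgroup.centralizer {h} := by
    unfold Subgroup.normalClosure
    rw [Subgroup.closure_le]
    intro x hx
    rw [Group.mem_conjugatesOfSet_iff] at hx
    obtain ⟨h', hh', hc⟩ := hx
    rw [isConj_iff] at hc
    obtain ⟨u, rfl⟩ := hc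
    rw [SetLike.mem_coe, Subgroup.mem_centralizer_singleton_iff]
    have hg1 : (S.lam (S.pr u⁻¹))⁻¹ * u⁻¹ ∈ S.G1 := by
      rw [mem_G1, S.pr_mul, S.pr_inv, S.pr_lam]; abel
    have h2 := st2 ⟨h, hh⟩ ⟨h', hh'⟩ (S.pr u⁻¹)
    unfold SS at h2
    rw [← S.bt_cj_G1 _ _ ⟨_, hg1⟩, cj_comp, bt_eq_zero_iff] at h2
    have h3 := congrArg Subtype.val h2
    simp only [Subgroup.coe_mul, inc_coe, cj_coe, mul_inv_cancel_left, inv_inv] at h3
    exact h3.symm
  have := hle hg'
  rw [Subgroup.mem_centralizer_singleton_iff] at this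
  exact this

/-- The abstract main theorem. -/
theorem main [Finite G] : 2 ^ 13 ≤ Nat.card G ∨ ∀ h ∈ S.H, ∀ g, S.pr g = 0 → g * h = h * g := by
  by_cases hF : ∀ x y w z, S.dat.F x y w z = 0
  · by_cases hP : ∀ u v x y w, S.dat.P u v x y w = 0
    · by_cases hb : ∀ x y z, S.dat.b x y z = 0
      · exact Or.inr (S.caseD hF hP hb)
      · push Not at hb
        obtain ⟨a, b, c, h⟩ := hb
        exact Or.inl (S.caseB hF a b c h)
    · push Not at hP
      obtain ⟨a, b, c, d, e, h⟩ := hP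
      exact Or.inl (S.caseP hF a b c d e h)
  · push Not at hF
    obtain ⟨a, b, c, d, h⟩ := hF
    exact Or.inl (S.caseF a b c d h)

end Setup

end Pool.Agent.MP_f8f515_al
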