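import Mathlib

set_option autoImplicit false

namespace Pool.Agent.MP_f8f515_al

universe u

/-- A loop: a set with a binary operation and a two-sided identity element `1` such that the
equations `a * x = b` and `y * a = b` have unique solutions. -/
class LoopStr (Q : Type u) extends Mul Q, One Q where
  protected one_mul : ∀ a : Q, 1 * a = a
  protected mul_one : ∀ a : Q, a * 1 = a
  existsUnique_right : ∀ a b : Q, ∃! x, a * x = b
  existsUnique_left : ∀ a b : Q, ∃! y, y * a = b

/-- The left translation `x ↦ a * x`. -/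
noncomputable def L {Q : Type u} [LoopStr Q] (a : Q) : Equiv.Perm Q :=
  Equiv.ofBijective (fun x => a * x)
    ⟨fun x y h => (LoopStr.existsUnique_right a (a * x)).unique rfl h.symm,
      fun b => (LoopStr.existsUnique_right a b).exists⟩

/-- The right translation `x ↦ x * a`. -/
noncomputable def R {Q : Type u} [LoopStr Q] (a : Q) : Equiv.Perm Q :=
  Equiv.ofBijective (fun x => x * a)
    ⟨fun x y h => (LoopStr.existsUnique_left a (x * a)).unique rfl h.symm,
      fun b => (LoopStr.existsUnique_left a b).exists⟩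

/-- The multiplication group: the subgroup of the symmetric group generated by all translations. -/
def Mlt (Q : Type u) [LoopStr Q] : Subgroup (Equiv.Perm Q) :=
  Subgroup.closure (Set.range L ∪ Set.range R)

/-- The inner mapping group: the stabilizer of `1` in the multiplication group. -/
def Inn (Q : Type u) [LoopStr Q] : Subgroup (Equiv.Perm Q) where
  carrier := {g | g ∈ Mlt Q ∧ g 1 = 1}
  mul_mem' := by
    rintro a b ⟨ha, ha1⟩ ⟨hb, hb1⟩
    exact ⟨mul_mem ha hb, by rw [Equiv.Perm.mul_apply, hb1, ha1]⟩
  one_mem' := ⟨one_mem _, rfl⟩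
  inv_mem' := by
    rintro a ⟨ha, ha1⟩
    exact ⟨inv_mem ha, by rw [Equiv.Perm.inv_eq_iff_eq, ha1]⟩

/-- The upper central series: `Z 0 = {1}` and `Z (k+1)` is the preimage of the center of
`Q / Z k`; two elements `u, v` have the same image in `Q / Z k` when `u = v * n` with `n ∈ Z k`. -/
def UCS (Q : Type u) [LoopStr Q] : ℕ → Set Q
  | 0 => {1}
  | k + 1 => {a | ∀ x y : Q,
      (∃ n ∈ UCS Q k, x * a = (a * x) * n) ∧
      (∃ n ∈ UCS Q k, a * (x * y) = ((a * x) * y) * n) ∧
      (∃ n ∈ UCS Q k, x * (a * y) = ((x * a) * y) * n) ∧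
      (∃ n ∈ UCS Q k, x * (y * a) = ((x * y) * a) * n)}

end Pool.Agent.MP_f8f515_al
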