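import Mathlib
import Pool.Agent.MP_f8f515_al.Defs

set_option autoImplicit false

namespace Pool.Agent.MP_f8f515_al

universe u

variable {Q : Type u} [LoopStr Q]

theorem lp_left_cancel {a x y : Q} (h : a * x = a * y) : x = y :=
  (LoopStr.existsUnique_right a (a * y)).unique h rfl

theorem lp_right_cancel {a x y : Q} (h : x * a = y * a) : x = y :=
  (LoopStr.existsUnique_left a (y * a)).unique h rfl

/-- Left translations as elements of the multiplication group. -/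
noncomputable def ll (a : Q) : Mlt Q := ⟨L a, Subgroup.subset_closure (Or.inl ⟨a, rfl⟩)⟩

/-- Right translations as elements of the multiplication group. -/
noncomputable def rr (a : Q) : Mlt Q := ⟨R a, Subgroup.subset_closure (Or.inr ⟨a, rfl⟩)⟩

theorem ll_smul (a x : Q) : ll a • x = a * x := rfl

theorem rr_smul (a x : Q) : rr a • x = x * a := rfl

theorem ll_one_smul (a : Q) : ll a • (1 : Q) = a := LoopStr.mul_one a

theorem rr_one_smul (a : Q) : rr a • (1 : Q) = a := LoopStr.one_mul a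

theorem Mlt_ext {g h : Mlt Q} (H : ∀ x : Q, g • x = h • x) : g = h :=
  Subtype.ext (Equiv.ext H)

theorem gen_top : Subgroup.closure (Set.range (ll : Q → Mlt Q) ∪ Set.range rr) = ⊤ := by
  have h := Subgroup.closure_closure_coe_preimage (k := Set.range (L : Q → Equiv.Perm Q) ∪ Set.range R)
  rw [eq_top_iff]
  refine le_trans h.ge ?_
  apply Subgroup.closure_mono
  rintro ⟨g, hg⟩ (⟨a, ha⟩ | ⟨a, ha⟩)
  · exact Or.inl ⟨a, Subtype.ext ha⟩
  · exact Or.inr ⟨a, Subtype.ext ha⟩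

/-- Induction over generators. -/
theorem closure_le_of (K : Subgroup (Mlt Q)) (hl : ∀ a : Q, ll a ∈ K) (hr : ∀ a : Q, rr a ∈ K)
    (g : Mlt Q) : g ∈ K := by
  have : Subgroup.closure (Set.range (ll : Q → Mlt Q) ∪ Set.range rr) ≤ K := by
    rw [Subgroup.closure_le]
    rintro _ (⟨a, rfl⟩ | ⟨a, rfl⟩)
    · exact hl a
    · exact hr a
  rw [gen_top] at this
  exact this trivial

theorem mem_Z1_iff (z : Q) : z ∈ UCS Q 1 ↔ (∀ x, x * z = z * x) ∧
    (∀ x y, z * (x * y) = (z * x) * y) ∧ (∀ x y, x * (z * y) = (x * z) * y) ∧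
    (∀ x y, x * (y * z) = (x * y) * z) := by
  constructor
  · intro h
    refine ⟨fun x => ?_, fun x y => ?_, fun x y => ?_, fun x y => ?_⟩
    · obtain ⟨⟨n, hn, e⟩, _⟩ := h x 1
      have hn' : n = 1 := hn
      rw [e, hn', LoopStr.mul_one]
    · obtain ⟨_, ⟨n, hn, e⟩, _⟩ := h x y
      have hn' : n = 1 := hn
      rw [e, hn', LoopStr.mul_one]
    · obtain ⟨_, _, ⟨n, hn, e⟩, _⟩ := h x y
      have hn' : n = 1 := hn
      rw [e, hn', LoopStr.mul_one]
    · obtain ⟨_, _, _, ⟨n, hn, e⟩⟩ := h x y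
      have hn' : n = 1 := hn
      rw [e, hn', LoopStr.mul_one]
  · rintro ⟨h1, h2, h3, h4⟩ x y
    refine ⟨⟨1, rfl, ?_⟩, ⟨1, rfl, ?_⟩, ⟨1, rfl, ?_⟩, ⟨1, rfl, ?_⟩⟩
    · rw [LoopStr.mul_one, h1]
    · rw [LoopStr.mul_one, h2]
    · rw [LoopStr.mul_one, h3]
    · rw [LoopStr.mul_one, h4]

theorem cen_comm {z : Q} (hz : z ∈ UCS Q 1) (g : Mlt Q) : g * rr z = rr z * g := by
  obtain ⟨h1, h2, h3, h4⟩ := (mem_Z1_iff z).mp hz
  have : g ∈ Subgroup.centralizer {rr z} := by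
    apply closure_le_of
    · intro a
      rw [Subgroup.mem_centralizer_singleton_iff]
      apply Mlt_ext
      intro x
      simp only [mul_smul, ll_smul, rr_smul]
      exact h4 a x
    · intro a
      rw [Subgroup.mem_centralizer_singleton_iff]
      apply Mlt_ext
      intro x
      simp only [mul_smul, rr_smul]
      rw [← h3, ← h1 a, h4]
  rwa [Subgroup.mem_centralizer_singleton_iff] at this

theorem cen_smul {z : Q} (hz : z ∈ UCS Q 1) (g : Mlt Q) (x : Q) : g • (x * z) = (g • x) * z := by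
  have := congrArg (fun k : Mlt Q => k • x) (cen_comm hz g)
  simpa only [mul_smul, rr_smul] using this

theorem ll_eq_rr {z : Q} (hz : z ∈ UCS Q 1) : ll z = rr z :=
  Mlt_ext (fun x => (((mem_Z1_iff z).mp hz).1 x).symm)

theorem cen_comm' {z : Q} (hz : z ∈ UCS Q 1) (g : Mlt Q) : g * ll z = ll z * g := by
  rw [ll_eq_rr hz, cen_comm hz]

theorem mem_Z1_of_fixed (z : Q) (h : ∀ g : Mlt Q, g • (1 : Q) = 1 → g • z = z) : z ∈ UCS Q 1 := by
  have h1 : ∀ x, x * z = z * x := by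
    intro x
    have := h ((ll x)⁻¹ * rr x) (by
      rw [mul_smul, inv_smul_eq_iff, ll_one_smul, rr_one_smul])
    rw [mul_smul, inv_smul_eq_iff] at this
    exact this.symm
  have h4 : ∀ x y, x * (y * z) = (x * y) * z := by
    intro x y
    have := h ((ll (x * y))⁻¹ * ll x * ll y) (by
      rw [mul_smul, mul_smul, inv_smul_eq_iff, ll_one_smul, ll_one_smul, ll_smul])
    rw [mul_smul, mul_smul, inv_smul_eq_iff] at this
    exact this
  have h2 : ∀ x y, z * (x * y) = (z * x) * y := by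
    intro x y
    have := h ((rr (x * y))⁻¹ * rr y * rr x) (by
      rw [mul_smul, mul_smul, inv_smul_eq_iff, rr_one_smul, rr_one_smul, rr_smul])
    rw [mul_smul, mul_smul, inv_smul_eq_iff] at this
    exact this.symm
  refine (mem_Z1_iff z).mpr ⟨h1, h2, fun x y => ?_, h4⟩
  rw [← h1 y, h4, h1 x, ← h2, ← h1 (x * y)]

theorem fixed_of_mem_Z1 {z : Q} (hz : z ∈ UCS Q 1) (g : Mlt Q) (hg : g • (1 : Q) = 1) :
    g • z = z := by
  have := cen_smul hz g 1
  rwa [hg, LoopStr.one_mul] at this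

theorem one_mem_Z1 : (1 : Q) ∈ UCS Q 1 := mem_Z1_of_fixed 1 (fun _ h => h)

theorem mul_mem_Z1 {z w : Q} (hz : z ∈ UCS Q 1) (hw : w ∈ UCS Q 1) : z * w ∈ UCS Q 1 :=
  mem_Z1_of_fixed _ (fun g hg => by rw [cen_smul hw, fixed_of_mem_Z1 hz g hg])

theorem exists_inv_Z1 {z : Q} (hz : z ∈ UCS Q 1) : ∃ w ∈ UCS Q 1, z * w = 1 := by
  refine ⟨(ll z)⁻¹ • (1 : Q), mem_Z1_of_fixed _ (fun g hg => ?_), ?_⟩
  · have h : g * (ll z)⁻¹ = (ll z)⁻¹ * g := by
      have := cen_comm' hz g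
      rw [mul_inv_eq_iff_eq_mul, mul_assoc, this, inv_mul_cancel_left]
    rw [← mul_smul, h, mul_smul, hg]
  · rw [← ll_smul, smul_inv_smul]

theorem cen_assoc {z : Q} (hz : z ∈ UCS Q 1) (x y : Q) : (x * y) * z = x * (y * z) :=
  (((mem_Z1_iff z).mp hz).2.2.2 x y).symm

theorem cen_mid {z : Q} (hz : z ∈ UCS Q 1) (x y : Q) : (x * z) * y = (x * y) * z := by
  obtain ⟨h1, h2, h3, h4⟩ := (mem_Z1_iff z).mp hz
  rw [← h3, ← h1, h4]

/-- The equivalence modulo the center. -/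
def cenSetoid (Q : Type u) [LoopStr Q] : Setoid Q where
  r x y := ∃ z ∈ UCS Q 1, y = x * z
  iseqv := {
    refl := fun x => ⟨1, one_mem_Z1, (LoopStr.mul_one x).symm⟩
    symm := by
      rintro x y ⟨z, hz, rfl⟩
      obtain ⟨w, hw, e⟩ := exists_inv_Z1 hz
      refine ⟨w, hw, ?_⟩
      rw [cen_assoc hw, e, LoopStr.mul_one]
    trans := by
      rintro x y t ⟨z, hz, rfl⟩ ⟨w, hw, rfl⟩
      exact ⟨z * w, mul_mem_Z1 hz hw, cen_assoc hw x z⟩ }

/-- The quotient by the center. -/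
def CQ (Q : Type u) [LoopStr Q] : Type u := Quotient (cenSetoid Q)

/-- The projection to the quotient by the center. -/
def pi (x : Q) : CQ Q := Quotient.mk (cenSetoid Q) x

theorem pi_eq_iff {x y : Q} : pi x = pi y ↔ ∃ z ∈ UCS Q 1, y = x * z :=
  ⟨fun h => Quotient.exact h, fun h => Quotient.sound h⟩

theorem pi_surj (y : CQ Q) : ∃ x : Q, pi x = y := Quotient.exists_rep y

instance : Mul (CQ Q) where
  mul := Quotient.map₂ (· * ·) (by
    rintro x _ ⟨z, hz, rfl⟩ y _ ⟨w, hw, rfl⟩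
    refine ⟨z * w, mul_mem_Z1 hz hw, ?_⟩
    show (x * z) * (y * w) = (x * y) * (z * w)
    rw [← cen_assoc hw, cen_mid hz, cen_assoc hw])

instance : One (CQ Q) := ⟨pi 1⟩

theorem pi_mul (x y : Q) : pi (x * y) = pi x * pi y := rfl

theorem pi_one : pi (1 : Q) = 1 := rfl

instance : LoopStr (CQ Q) where
  one_mul := by
    intro a
    obtain ⟨x, rfl⟩ := pi_surj a
    rw [← pi_one, ← pi_mul, LoopStr.one_mul]
  mul_one := by
    intro a
    obtain ⟨x, rfl⟩ := pi_surj a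
    rw [← pi_one, ← pi_mul, LoopStr.mul_one]
  existsUnique_right := by
    intro a b
    obtain ⟨x, rfl⟩ := pi_surj a
    obtain ⟨y, rfl⟩ := pi_surj b
    obtain ⟨t, ht, _⟩ := LoopStr.existsUnique_right x y
    refine ⟨pi t, ?_, ?_⟩
    · show pi x * pi t = pi y
      rw [← pi_mul, ht]
    · intro c hc
      obtain ⟨s, rfl⟩ := pi_surj c
      have hc' : pi (x * s) = pi (x * t) := by rw [ht]; exact hc
      obtain ⟨z, hz, e⟩ := pi_eq_iff.mp hc'
      rw [cen_assoc hz] at e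
      exact pi_eq_iff.mpr ⟨z, hz, lp_left_cancel e⟩
  existsUnique_left := by
    intro a b
    obtain ⟨x, rfl⟩ := pi_surj a
    obtain ⟨y, rfl⟩ := pi_surj b
    obtain ⟨t, ht, _⟩ := LoopStr.existsUnique_left x y
    refine ⟨pi t, ?_, ?_⟩
    · show pi t * pi x = pi y
      rw [← pi_mul, ht]
    · intro c hc
      obtain ⟨s, rfl⟩ := pi_surj c
      have hc' : pi (s * x) = pi (t * x) := by rw [ht]; exact hc
      obtain ⟨z, hz, e⟩ := pi_eq_iff.mp hc'
      rw [← cen_mid hz] at e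
      exact pi_eq_iff.mpr ⟨z, hz, lp_right_cancel e⟩

theorem pi_eq_one_iff {x : Q} : pi x = 1 ↔ x ∈ UCS Q 1 := by
  rw [← pi_one, eq_comm, pi_eq_iff]
  constructor
  · rintro ⟨z, hz, rfl⟩
    rwa [LoopStr.one_mul]
  · intro h
    exact ⟨x, h, (LoopStr.one_mul x).symm⟩

theorem mem_Zs_succ (k : ℕ) (a : Q) : a ∈ UCS Q (k + 1) ↔ pi a ∈ UCS (CQ Q) k := by
  induction k generalizing a with
  | zero => exact pi_eq_one_iff.symm
  | succ k ih =>
    constructor
    · intro h x' y'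
      obtain ⟨x, rfl⟩ := pi_surj x'
      obtain ⟨y, rfl⟩ := pi_surj y'
      obtain ⟨⟨n1, h1, e1⟩, ⟨n2, h2, e2⟩, ⟨n3, h3, e3⟩, ⟨n4, h4, e4⟩⟩ := h x y
      refine ⟨⟨pi n1, (ih n1).mp h1, ?_⟩, ⟨pi n2, (ih n2).mp h2, ?_⟩,
        ⟨pi n3, (ih n3).mp h3, ?_⟩, ⟨pi n4, (ih n4).mp h4, ?_⟩⟩
      · simp only [← pi_mul, e1]
      · simp only [← pi_mul, e2]
      · simp only [← pi_mul, e3]
      · simp only [← pi_mul, e4]
    · intro h x y
      have aux : ∀ s t : Q, (∃ n' ∈ UCS (CQ Q) k, pi s = pi t * n') →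
          ∃ n ∈ UCS Q (k + 1), s = t * n := by
        rintro s t ⟨n', hn', e⟩
        obtain ⟨n, rfl⟩ := pi_surj n'
        rw [← pi_mul, eq_comm] at e
        obtain ⟨z, hz, e'⟩ := pi_eq_iff.mp e
        refine ⟨n * z, (ih _).mpr ?_, ?_⟩
        · have : pi (n * z) = pi n := (pi_eq_iff.mpr ⟨z, hz, rfl⟩).symm
          rwa [this]
        · rw [e', cen_assoc hz]
      obtain ⟨h1, h2, h3, h4⟩ := h (pi x) (pi y)
      exact ⟨aux _ _ h1, aux _ _ h2, aux _ _ h3, aux _ _ h4⟩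

theorem Zs_succ_eq_univ (k : ℕ) : UCS Q (k + 1) = Set.univ ↔ UCS (CQ Q) k = Set.univ := by
  rw [Set.eq_univ_iff_forall, Set.eq_univ_iff_forall]
  constructor
  · intro h y
    obtain ⟨x, rfl⟩ := pi_surj y
    exact (mem_Zs_succ k x).mp (h x)
  · intro h x
    exact (mem_Zs_succ k x).mpr (h _)

/-- The action of the multiplication group on the quotient. -/
def phi0 : Mlt Q →* Equiv.Perm (CQ Q) where
  toFun g := {
    toFun := Quotient.map (fun x => g • x) (by
      rintro x _ ⟨z, hz, rfl⟩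
      exact ⟨z, hz, cen_smul hz g x⟩)
    invFun := Quotient.map (fun x => g⁻¹ • x) (by
      rintro x _ ⟨z, hz, rfl⟩
      exact ⟨z, hz, cen_smul hz g⁻¹ x⟩)
    left_inv := by
      intro y
      obtain ⟨x, rfl⟩ := pi_surj y
      exact congrArg pi (inv_smul_smul g x)
    right_inv := by
      intro y
      obtain ⟨x, rfl⟩ := pi_surj y
      exact congrArg pi (smul_inv_smul g x) }
  map_one' := by
    apply Equiv.ext
    intro y
    obtain ⟨x, rfl⟩ := pi_surj y
    exact congrArg pi (one_smul _ x)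
  map_mul' := by
    intro g h
    apply Equiv.ext
    intro y
    obtain ⟨x, rfl⟩ := pi_surj y
    exact congrArg pi (mul_smul g h x)

theorem phi0_ll (a : Q) : phi0 (ll a) = L (pi a) := by
  apply Equiv.ext
  intro y
  obtain ⟨x, rfl⟩ := pi_surj y
  rfl

theorem phi0_rr (a : Q) : phi0 (rr a) = R (pi a) := by
  apply Equiv.ext
  intro y
  obtain ⟨x, rfl⟩ := pi_surj y
  rfl

theorem phi0_mem (g : Mlt Q) : phi0 g ∈ Mlt (CQ Q) := by
  have : g ∈ (Mlt (CQ Q)).comap (phi0 (Q := Q)) := by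
    apply closure_le_of
    · intro a
      rw [Subgroup.mem_comap, phi0_ll]
      exact (ll (pi a)).2
    · intro a
      rw [Subgroup.mem_comap, phi0_rr]
      exact (rr (pi a)).2
  exact this

/-- The homomorphism of multiplication groups. -/
def phi : Mlt Q →* Mlt (CQ Q) := phi0.codRestrict (Mlt (CQ Q)) phi0_mem

theorem phi_smul (g : Mlt Q) (x : Q) : phi g • pi x = pi (g • x) := rfl

theorem phi_ll (a : Q) : phi (ll a) = ll (pi a) := Subtype.ext (phi0_ll a)

theorem phi_rr (a : Q) : phi (rr a) = rr (pi a) := Subtype.ext (phi0_rr a)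

theorem phi_surj : Function.Surjective (phi (Q := Q)) := by
  intro g
  have : g ∈ (phi (Q := Q)).range := by
    apply closure_le_of
    · intro a
      obtain ⟨x, rfl⟩ := pi_surj a
      exact ⟨ll x, phi_ll x⟩
    · intro a
      obtain ⟨x, rfl⟩ := pi_surj a
      exact ⟨rr x, phi_rr x⟩
  exact this

theorem phi_eq_one_iff (g : Mlt Q) : phi g = 1 ↔ ∀ x : Q, ∃ z ∈ UCS Q 1, g • x = x * z := by
  constructor
  · intro h x
    have : pi x = pi (g • x) := by rw [← phi_smul, h, one_smul]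
    exact pi_eq_iff.mp this
  · intro h
    apply Mlt_ext
    intro y
    obtain ⟨x, rfl⟩ := pi_surj y
    rw [phi_smul, one_smul, eq_comm]
    exact pi_eq_iff.mpr (h x)

theorem phi_ll_cen {z : Q} (hz : z ∈ UCS Q 1) : phi (ll z) = 1 := by
  rw [phi_eq_one_iff]
  intro x
  exact ⟨z, hz, (((mem_Z1_iff z).mp hz).1 x).symm⟩

theorem inn_lift (g' : Mlt (CQ Q)) (h' : g' • (1 : CQ Q) = 1) :
    ∃ h : Mlt Q, h • (1 : Q) = 1 ∧ phi h = g' := by
  obtain ⟨g, rfl⟩ := phi_surj g'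
  have hz : g • (1 : Q) ∈ UCS Q 1 := by
    rw [← pi_eq_one_iff, ← phi_smul, pi_one, h']
  refine ⟨(ll (g • (1 : Q)))⁻¹ * g, ?_, ?_⟩
  · rw [mul_smul, inv_smul_eq_iff, ll_one_smul]
  · rw [map_mul, map_inv, phi_ll_cen hz, inv_one, one_mul]

/-- The kernel of `phi` is commutative. -/
theorem ker_comm (g h : Mlt Q) (hg : phi g = 1) (hh : phi h = 1) : g * h = h * g := by
  rw [phi_eq_one_iff] at hg hh
  apply Mlt_ext
  intro x
  obtain ⟨z, hz, ez⟩ := hg x
  obtain ⟨w, hw, ew⟩ := hh x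
  rw [mul_smul, mul_smul, ez, ew, cen_smul hw, cen_smul hz, ez, ew, cen_mid hz]

theorem card_le [Finite (Mlt Q)] : Finite (Mlt (CQ Q)) ∧ Nat.card (Mlt (CQ Q)) ≤ Nat.card (Mlt Q) :=
  ⟨Finite.of_surjective _ phi_surj, Nat.card_le_card_of_surjective _ phi_surj⟩

end Pool.Agent.MP_f8f515_al
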