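import Mathlib
import Pool.Agent.MP_f8f515_al.Loop
import Pool.Agent.MP_f8f515_al.Gen

set_option autoImplicit false

open scoped commutatorElement

namespace Pool.Agent.MP_f8f515_al

universe u

variable (Q : Type u) [LoopStr Q]

/-- The inner mapping group inside the multiplication group. -/
def HH : Subgroup (Mlt Q) := MulAction.stabilizer (Mlt Q) (1 : Q)

variable {Q} in
theorem mem_HH (g : Mlt Q) : g ∈ HH Q ↔ g • (1 : Q) = 1 := Iff.rfl

/-- The normal closure of the inner mapping group. -/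
def GG : Subgroup (Mlt Q) := Subgroup.normalClosure (HH Q : Set (Mlt Q))

instance : (GG Q).Normal := Subgroup.normalClosure_normal

variable {Q}

theorem HH_le_GG : HH Q ≤ GG Q := Subgroup.subset_normalClosure

theorem mk_rr (x : Q) : (QuotientGroup.mk (rr x) : Mlt Q ⧸ GG Q) = QuotientGroup.mk (ll x) := by
  rw [eq_comm, QuotientGroup.eq]
  apply HH_le_GG
  rw [mem_HH, mul_smul, inv_smul_eq_iff, ll_one_smul, rr_one_smul]

theorem mk_comm1 (x y : Q) : (QuotientGroup.mk (ll x) : Mlt Q ⧸ GG Q) * QuotientGroup.mk (rr y) =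
    QuotientGroup.mk (rr y) * QuotientGroup.mk (ll x) := by
  rw [← QuotientGroup.mk_mul, ← QuotientGroup.mk_mul, eq_comm, QuotientGroup.eq]
  apply HH_le_GG
  rw [mem_HH, mul_smul, inv_smul_eq_iff, mul_smul, mul_smul, ll_one_smul, rr_one_smul, ll_smul,
    rr_smul]

theorem mk_comm2 (x : Q) (g : Mlt Q) :
    (QuotientGroup.mk (ll x) : Mlt Q ⧸ GG Q) * QuotientGroup.mk g =
    QuotientGroup.mk g * QuotientGroup.mk (ll x) := by
  have : g ∈ (Subgroup.centralizer {(QuotientGroup.mk' (GG Q) (ll x))}).comap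
      (QuotientGroup.mk' (GG Q)) := by
    apply closure_le_of
    · intro y
      rw [Subgroup.mem_comap, Subgroup.mem_centralizer_singleton_iff]
      have := mk_comm1 x y
      rw [mk_rr] at this
      exact this.symm
    · intro y
      rw [Subgroup.mem_comap, Subgroup.mem_centralizer_singleton_iff]
      exact (mk_comm1 x y).symm
  rw [Subgroup.mem_comap, Subgroup.mem_centralizer_singleton_iff] at this
  exact this.symm

theorem mk_comm (h g : Mlt Q) : (QuotientGroup.mk h : Mlt Q ⧸ GG Q) * QuotientGroup.mk g =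
    QuotientGroup.mk g * QuotientGroup.mk h := by
  have : h ∈ (Subgroup.centralizer {(QuotientGroup.mk' (GG Q) g)}).comap
      (QuotientGroup.mk' (GG Q)) := by
    apply closure_le_of
    · intro y
      rw [Subgroup.mem_comap, Subgroup.mem_centralizer_singleton_iff]
      exact mk_comm2 y g
    · intro y
      rw [Subgroup.mem_comap, Subgroup.mem_centralizer_singleton_iff]
      have := mk_comm2 y g
      rw [← mk_rr] at this
      exact this
  rw [Subgroup.mem_comap, Subgroup.mem_centralizer_singleton_iff] at this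
  exact this

instance quotComm : CommGroup (Mlt Q ⧸ GG Q) where
  mul_comm := by
    intro a b
    obtain ⟨g, rfl⟩ := QuotientGroup.mk_surjective a
    obtain ⟨h, rfl⟩ := QuotientGroup.mk_surjective b
    exact mk_comm g h

variable (Q) in
/-- The abelian quotient. -/
def VV : Type u := Additive (Mlt Q ⧸ GG Q)

instance : AddCommGroup (VV Q) := inferInstanceAs (AddCommGroup (Additive (Mlt Q ⧸ GG Q)))

/-- The projection. -/
def pr (g : Mlt Q) : VV Q := Additive.ofMul (QuotientGroup.mk g)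

theorem pr_mul (g h : Mlt Q) : pr (g * h) = pr g + pr h := rfl

theorem pr_inv (g : Mlt Q) : pr g⁻¹ = - pr g := rfl

theorem pr_eq_zero_iff (g : Mlt Q) : pr g = 0 ↔ g ∈ GG Q := by
  show (QuotientGroup.mk g : Mlt Q ⧸ GG Q) = 1 ↔ _
  exact QuotientGroup.eq_one_iff g

theorem pr_rr (x : Q) : pr (rr x) = pr (ll x) := mk_rr x

theorem pr_HH {h : Mlt Q} (hh : h • (1 : Q) = 1) : pr h = 0 :=
  (pr_eq_zero_iff h).mpr (HH_le_GG hh)

theorem pr_ll_smul (g : Mlt Q) : pr (ll (g • (1 : Q))) = pr g := by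
  have : pr ((ll (g • (1 : Q)))⁻¹ * g) = 0 := by
    apply pr_HH
    rw [mul_smul, inv_smul_eq_iff, ll_one_smul]
  rw [pr_mul, pr_inv, neg_add_eq_zero] at this
  exact this

theorem pr_ll_mul (x y : Q) : pr (ll (x * y)) = pr (ll x) + pr (ll y) := by
  have := pr_ll_smul (ll x * ll y)
  rwa [mul_smul, ll_one_smul, ll_smul, pr_mul] at this

theorem exists_sec (v : VV Q) : ∃ x : Q, pr (ll x) = v := by
  obtain ⟨g, hg⟩ := QuotientGroup.mk_surjective (Additive.toMul v : Mlt Q ⧸ GG Q)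
  refine ⟨g • (1 : Q), ?_⟩
  rw [pr_ll_smul]
  exact hg

/-- The section. -/
noncomputable def sec (v : VV Q) : Q := (exists_sec v).choose

theorem pr_sec (v : VV Q) : pr (ll (sec v)) = v := (exists_sec v).choose_spec

/-! ### The consequences of commutativity of the inner mapping group -/

theorem ker_smul_one {k : Mlt Q} (hk : phi k = 1) : k • (1 : Q) ∈ UCS Q 1 := by
  obtain ⟨z, hz, e⟩ := (phi_eq_one_iff k).mp hk 1
  rw [e, LoopStr.one_mul]
  exact hz

section

variable (habel : ∀ g h : Mlt Q, g • (1 : Q) = 1 → h • (1 : Q) = 1 → g * h = h * g)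

include habel

theorem HH_ker_comm {h k : Mlt Q} (hh : h • (1 : Q) = 1) (hk : phi k = 1) : h * k = k * h := by
  have hz := ker_smul_one hk
  set z := k • (1 : Q) with hzdef
  have e : k = ll z * ((ll z)⁻¹ * k) := by group
  have h1 : ((ll z)⁻¹ * k) • (1 : Q) = 1 := by
    rw [mul_smul, inv_smul_eq_iff, ll_one_smul]
  rw [e, ← mul_assoc, cen_comm' hz h, mul_assoc, habel h _ hh h1]
  group

theorem GG_ker_comm {g k : Mlt Q} (hg : g ∈ GG Q) (hk : phi k = 1) : g * k = k * g := by
  have hle : GG Q ≤ Subgroup.centralizer ((phi (Q := Q)).ker : Set (Mlt Q)) := by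
    apply Subgroup.normalClosure_le_normal
    intro h hh
    rw [SetLike.mem_coe, Subgroup.mem_centralizer_iff]
    intro k hk
    exact (HH_ker_comm habel hh hk).symm
  have := hle hg
  rw [Subgroup.mem_centralizer_iff] at this
  exact (this k hk).symm

end

theorem center_eq_ll {Q : Type u} [LoopStr Q] {c : Mlt Q} (hc : c ∈ Subgroup.center (Mlt Q)) :
    c = ll (c • (1 : Q)) := by
  apply Mlt_ext
  intro x
  have h := Subgroup.mem_center_iff.mp hc (rr x)
  have h2 := congrArg (fun k : Mlt Q => k • (1 : Q)) h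
  simp only [mul_smul, rr_smul, LoopStr.one_mul] at h2
  rw [ll_smul]
  exact h2.symm

theorem center_smul_one {Q : Type u} [LoopStr Q] {c : Mlt Q} (hc : c ∈ Subgroup.center (Mlt Q)) :
    c • (1 : Q) ∈ UCS Q 1 := by
  apply mem_Z1_of_fixed
  intro g hg
  have h := Subgroup.mem_center_iff.mp hc g
  rw [← mul_smul, h, mul_smul, hg]

theorem ll_mem_center {Q : Type u} [LoopStr Q] {z : Q} (hz : z ∈ UCS Q 1) :
    ll z ∈ Subgroup.center (Mlt Q) :=
  Subgroup.mem_center_iff.mpr (fun g => cen_comm' hz g)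

theorem rr_mem_center {Q : Type u} [LoopStr Q] {z : Q} (hz : z ∈ UCS Q 1) :
    rr z ∈ Subgroup.center (Mlt Q) :=
  Subgroup.mem_center_iff.mpr (fun g => cen_comm hz g)

theorem ll_mul_cen {Q : Type u} [LoopStr Q] {z : Q} (hz : z ∈ UCS Q 1) (x : Q) :
    ll (x * z) = ll x * ll z := by
  apply Mlt_ext
  intro y
  rw [mul_smul, ll_smul, ll_smul, ll_smul, cen_mid hz, cen_assoc hz,
    ((mem_Z1_iff z).mp hz).1 y]

theorem rr_mul_cen {Q : Type u} [LoopStr Q] {z : Q} (hz : z ∈ UCS Q 1) (x : Q) :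
    rr (x * z) = rr x * rr z := by
  apply Mlt_ext
  intro y
  rw [mul_smul, rr_smul, rr_smul, rr_smul, cen_mid hz, cen_assoc hz]

variable (Q) in
/-- The subgroup `C`. -/
def CC : Subgroup (Mlt Q) := GG Q ⊓ (Subgroup.center (Mlt (CQ Q))).comap phi

theorem CC_normal : (CC Q).Normal := by
  unfold CC
  infer_instance

theorem CC_le {c : Mlt Q} (hc : c ∈ CC Q) : c ∈ GG Q := hc.1

theorem CC_phi {c : Mlt Q} (hc : c ∈ CC Q) : phi c ∈ Subgroup.center (Mlt (CQ Q)) := hc.2

/-- The `H`-part of `c ∈ C` lies in the kernel. -/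
theorem CC_part {c : Mlt Q} (hc : c ∈ CC Q) : phi ((ll (c • (1 : Q)))⁻¹ * c) = 1 := by
  rw [map_mul, map_inv, phi_ll, ← phi_smul, pi_one, ← center_eq_ll (CC_phi hc), inv_mul_cancel]

theorem part_smul_one (c : Mlt Q) : ((ll (c • (1 : Q)))⁻¹ * c) • (1 : Q) = 1 := by
  rw [mul_smul, inv_smul_eq_iff, ll_one_smul]

theorem ll_smul_mem_GG {c : Mlt Q} (hc : c ∈ GG Q) : ll (c • (1 : Q)) ∈ GG Q := by
  rw [← pr_eq_zero_iff, pr_ll_smul, pr_eq_zero_iff]
  exact hc

theorem comm_phi_cen {c g : Mlt Q} (hc : phi c ∈ Subgroup.center (Mlt (CQ Q))) :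
    phi ⁅c, g⁆ = 1 := by
  rw [map_commutatorElement, commutatorElement_eq_one_iff_mul_comm]
  exact (Subgroup.mem_center_iff.mp hc (phi g)).symm

section

variable (habel : ∀ g h : Mlt Q, g • (1 : Q) = 1 → h • (1 : Q) = 1 → g * h = h * g)

include habel

theorem ll_rr_comm {q q' : Q} (hq : ll q ∈ GG Q) (hq' : pi q' ∈ UCS (CQ Q) 1) :
    ll q * rr q' = rr q' * ll q := by
  apply Mlt_ext
  intro x
  set k : Mlt Q := (rr (x * q'))⁻¹ * (rr q' * rr x) with hk
  have hk1 : k • (1 : Q) = 1 := by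
    rw [hk, mul_smul, inv_smul_eq_iff, mul_smul, rr_one_smul, rr_one_smul, rr_smul]
  have hkphi : phi k = 1 := by
    rw [hk, map_mul, map_inv, map_mul, phi_rr, phi_rr, phi_rr, pi_mul, inv_mul_eq_one,
      rr_mul_cen hq']
    exact (cen_comm hq' (rr (pi x)))
  have hkq : k • q = q := by
    have h1 := GG_ker_comm habel hq hkphi
    have h2 := congrArg (fun g : Mlt Q => g • (1 : Q)) h1
    simp only [mul_smul, hk1, ll_one_smul] at h2
    exact h2.symm
  rw [hk, mul_smul, inv_smul_eq_iff] at hkq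
  simp only [mul_smul, rr_smul, ll_smul] at hkq ⊢
  exact hkq.symm

theorem T_phi {q : Q} (hq : pi q ∈ UCS (CQ Q) 1) : phi ((ll q)⁻¹ * rr q) = 1 := by
  rw [map_mul, map_inv, phi_ll, phi_rr, ll_eq_rr hq, inv_mul_cancel]

theorem ll_ll_comm {q q' : Q} (hq : ll q ∈ GG Q) (hq' : pi q' ∈ UCS (CQ Q) 1) :
    ll q * ll q' = ll q' * ll q := by
  have h1 := ll_rr_comm habel hq hq'
  have h2 := T_phi habel hq'
  have h3 := GG_ker_comm habel hq h2
  have e : rr q' = ll q' * ((ll q')⁻¹ * rr q') := by group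
  rw [e, mul_assoc (ll q'), ← h3, ← mul_assoc, ← mul_assoc (ll q')] at h1
  exact mul_right_cancel h1

theorem CC_comm {c d : Mlt Q} (hc : c ∈ CC Q) (hd : d ∈ CC Q) : c * d = d * c := by
  have hk := CC_part hc
  have hl := CC_part hd
  have e1 : c = ll (c • (1 : Q)) * ((ll (c • (1 : Q)))⁻¹ * c) := by group
  have e2 : d = ll (d • (1 : Q)) * ((ll (d • (1 : Q)))⁻¹ * d) := by group
  set k := (ll (c • (1 : Q)))⁻¹ * c with hkdef
  set l := (ll (d • (1 : Q)))⁻¹ * d with hldef
  have hpd : pi (d • (1 : Q)) ∈ UCS (CQ Q) 1 := by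
    rw [← phi_smul]
    exact center_smul_one (CC_phi hd)
  have h1 := ll_ll_comm habel (ll_smul_mem_GG (CC_le hc)) hpd
  have h2 : d * k = k * d := GG_ker_comm habel (CC_le hd) hk
  have h3 : ll (c • (1 : Q)) * l = l * ll (c • (1 : Q)) :=
    GG_ker_comm habel (ll_smul_mem_GG (CC_le hc)) hl
  have h4 : ll (c • (1 : Q)) * d = d * ll (c • (1 : Q)) := by
    rw [e2, ← mul_assoc, h1, mul_assoc, h3]
    group
  have h5 : c * d = ll (c • (1 : Q)) * k * d := by rw [← e1]
  have h6 : d * c = d * (ll (c • (1 : Q)) * k) := by rw [← e1]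
  rw [h5, h6, mul_assoc, ← h2, ← mul_assoc, h4, mul_assoc]

end

/-! ### Class three -/

section

variable (h3 : UCS Q 3 = Set.univ)

include h3

theorem Z1_top : UCS (CQ (CQ Q)) 1 = Set.univ := by
  rw [← Zs_succ_eq_univ, ← Zs_succ_eq_univ]
  exact h3

theorem GG_phi {g : Mlt Q} (hg : g ∈ GG Q) : phi (phi g) = 1 := by
  have hle : GG Q ≤ ((phi (Q := CQ Q)).comp (phi (Q := Q))).ker := by
    apply Subgroup.normalClosure_le_normal
    intro h hh
    rw [SetLike.mem_coe, MonoidHom.mem_ker, MonoidHom.comp_apply]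
    apply Mlt_ext
    intro x
    rw [one_smul]
    apply fixed_of_mem_Z1
    · rw [Z1_top h3]; trivial
    · have hh' : h • (1 : Q) = 1 := hh
      rw [← pi_one, phi_smul, ← pi_one, phi_smul, hh']
  exact hle hg

theorem GG_smul_one {g : Mlt Q} (hg : g ∈ GG Q) : pi (g • (1 : Q)) ∈ UCS (CQ Q) 1 := by
  rw [← phi_smul, pi_one]
  exact ker_smul_one (GG_phi h3 hg)

theorem ll_smul_mem_CC {g : Mlt Q} (hg : g ∈ GG Q) : ll (g • (1 : Q)) ∈ CC Q := by
  refine ⟨ll_smul_mem_GG hg, ?_⟩
  show phi (ll (g • (1 : Q))) ∈ Subgroup.center (Mlt (CQ Q))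
  rw [phi_ll]
  exact ll_mem_center (GG_smul_one h3 hg)

theorem ll_inv_ll_mem {x a : Q} (hxa : pr (ll x) = pr (ll a)) : (ll x)⁻¹ * ll a ∈ CC Q ∧
    (rr x)⁻¹ * rr a ∈ CC Q := by
  have hg : (ll x)⁻¹ * ll a ∈ GG Q := by
    rw [← pr_eq_zero_iff, pr_mul, pr_inv, hxa, neg_add_cancel]
  set q := ((ll x)⁻¹ * ll a) • (1 : Q) with hq
  have hqc : pi q ∈ UCS (CQ Q) 1 := GG_smul_one h3 hg
  have hxq : a = x * q := by
    rw [hq, mul_smul, ← ll_smul, smul_inv_smul, ll_one_smul]
  have hpa : pi a = pi x * pi q := by rw [hxq, pi_mul]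
  refine ⟨⟨hg, ?_⟩, ⟨?_, ?_⟩⟩
  · show phi ((ll x)⁻¹ * ll a) ∈ Subgroup.center (Mlt (CQ Q))
    rw [map_mul, map_inv, phi_ll, phi_ll, hpa, ll_mul_cen hqc, inv_mul_cancel_left]
    exact ll_mem_center hqc
  · show (rr x)⁻¹ * rr a ∈ GG Q
    rw [← pr_eq_zero_iff, pr_mul, pr_inv, pr_rr, pr_rr, hxa, neg_add_cancel]
  · show phi ((rr x)⁻¹ * rr a) ∈ Subgroup.center (Mlt (CQ Q))
    rw [map_mul, map_inv, phi_rr, phi_rr, hpa, rr_mul_cen hqc, inv_mul_cancel_left]
    exact rr_mem_center hqc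

/-- The setup of a class three loop. -/
noncomputable def theSetup
    (habel : ∀ g h : Mlt Q, g • (1 : Q) = 1 → h • (1 : Q) = 1 → g * h = h * g) :
    Setup (Mlt Q) (VV Q) where
  pr := pr
  pr_mul := pr_mul
  H := HH Q
  C := CC Q
  H_le := fun h hh => pr_HH hh
  C_le := fun c hc => (pr_eq_zero_iff c).mpr (CC_le hc)
  H_comm := fun a ha b hb => habel a b ha hb
  C_comm := fun a ha b hb => CC_comm habel ha hb
  C_normal := CC_normal
  dec := by
    intro g hg
    rw [pr_eq_zero_iff] at hg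
    exact ⟨ll (g • (1 : Q)), ll_smul_mem_CC h3 hg, (ll (g • (1 : Q)))⁻¹ * g, part_smul_one g,
      by group⟩
  cls2 := by
    intro a b c ha hb hc
    rw [pr_eq_zero_iff] at ha hb hc
    apply GG_ker_comm habel hc
    rw [map_commutatorElement, commutatorElement_eq_one_iff_mul_comm]
    exact ker_comm _ _ (GG_phi h3 ha) (GG_phi h3 hb)
  C_cen := by
    intro c hc g a ha
    rw [pr_eq_zero_iff] at ha
    exact GG_ker_comm habel ha (comm_phi_cen (CC_phi hc))
  lam := fun v => ll (sec v)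
  pr_lam := pr_sec
  t := fun v => (ll (sec v))⁻¹ * rr (sec v)
  t_mem := by
    intro v
    rw [mem_HH, mul_smul, inv_smul_eq_iff, ll_one_smul, rr_one_smul]
  tt := by
    intro y w
    rw [mul_inv_cancel_left, mem_HH, mul_smul, inv_smul_eq_iff, mul_smul, mul_smul, ll_one_smul,
      ll_one_smul, ll_smul, rr_smul]
  gen := by
    rw [eq_top_iff]
    rintro g -
    apply closure_le_of
    · intro a
      have h := (ll_inv_ll_mem h3 (x := sec (pr (ll a))) (a := a) (pr_sec _)).1
      have e : ll a = ll (sec (pr (ll a))) * ((ll (sec (pr (ll a))))⁻¹ * ll a) := by group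
      rw [e]
      exact mul_mem (Subgroup.subset_closure (Or.inl (Or.inl ⟨_, rfl⟩)))
        (Subgroup.subset_closure (Or.inr h))
    · intro a
      have h := (ll_inv_ll_mem h3 (x := sec (pr (ll a))) (a := a) (pr_sec _)).2
      have e : rr a = ll (sec (pr (ll a))) * ((ll (sec (pr (ll a))))⁻¹ * rr (sec (pr (ll a)))) *
        ((rr (sec (pr (ll a))))⁻¹ * rr a) := by group
      rw [e]
      exact mul_mem (mul_mem (Subgroup.subset_closure (Or.inl (Or.inl ⟨_, rfl⟩)))
        (Subgroup.subset_closure (Or.inl (Or.inr ⟨_, rfl⟩))))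
        (Subgroup.subset_closure (Or.inr h))
  ncl := fun g hg => (pr_eq_zero_iff g).mp hg
  tc := by
    intro c hc
    set q := c • (1 : Q) with hq
    have hqc : pi q ∈ UCS (CQ Q) 1 := GG_smul_one h3 (CC_le hc)
    refine ⟨(ll q)⁻¹ * rr q, ?_, ?_, ?_⟩
    · rw [mem_HH, mul_smul, inv_smul_eq_iff, ll_one_smul, rr_one_smul]
    · intro a ha
      rw [pr_eq_zero_iff] at ha
      exact GG_ker_comm habel ha (T_phi habel hqc)
    · intro v
      set x := sec v with hx
      set t : Mlt Q := (ll x)⁻¹ * rr x with ht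
      set κ : Mlt Q := ⁅t, c⁆ with hκ
      have ht1 : t • (1 : Q) = 1 := by
        rw [ht, mul_smul, inv_smul_eq_iff, ll_one_smul, rr_one_smul]
      have hκphi : phi κ = 1 := by
        rw [hκ, ← commutatorElement_inv, map_inv, comm_phi_cen (CC_phi hc), inv_one]
      have hζ := ker_smul_one hκphi
      set ζ := κ • (1 : Q) with hζdef
      have htc : t * c = κ * c * t := by
        rw [hκ, commutatorElement_def]; group
      have hκc : c * κ = κ * c := GG_ker_comm habel (CC_le hc) hκphi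
      have e1 : q * x = (x * q) * ζ := by
        have a1 : q * x = (rr x * c) • (1 : Q) := by
          rw [mul_smul, rr_smul]
        have a2 : rr x * c = ll x * (c * κ * t) := by
          rw [hκc, ← htc, ht]; group
        rw [a1, a2, mul_smul, mul_smul, ht1, mul_smul, ll_smul]
        have a3 : c • ζ = q * ζ := by
          have := cen_smul hζ c 1
          rwa [LoopStr.one_mul] at this
        rw [← hζdef, a3, cen_assoc hζ]
      rw [mem_HH, mul_smul, ← hζdef, mul_smul, mul_smul, inv_smul_eq_iff, ll_one_smul, mul_smul,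
        inv_smul_eq_iff, ll_smul, ll_smul, rr_smul, cen_mid hζ]
      exact e1.symm
  core := by
    intro k hk hc
    apply Mlt_ext
    intro x
    have h := congrArg (fun g : Mlt Q => g • (1 : Q)) (hc (ll x))
    have hk' : k • (1 : Q) = 1 := hk
    simp only [mul_smul, hk', ll_one_smul] at h
    rw [one_smul]
    exact h.symm

theorem class_three [Finite (Mlt Q)] (h2 : UCS Q 2 ≠ Set.univ)
    (habel : ∀ g h : Mlt Q, g • (1 : Q) = 1 → h • (1 : Q) = 1 → g * h = h * g) :
    2 ^ 13 ≤ Nat.card (Mlt Q) := by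
  rcases (theSetup h3 habel).main with h | h
  · exact h
  · exfalso
    apply h2
    have hcom : ∀ h : Mlt Q, h • (1 : Q) = 1 → ∀ g ∈ GG Q, g * h = h * g :=
      fun k hk g hg => h k hk g ((pr_eq_zero_iff g).mpr hg)
    have hZ : ∀ g ∈ GG Q, g • (1 : Q) ∈ UCS Q 1 := by
      intro g hg
      apply mem_Z1_of_fixed
      intro k hk
      rw [← mul_smul, ← hcom k hk g hg, mul_smul, hk]
    have aux : ∀ s t : Q, pr (ll s) = pr (ll t) → ∃ n ∈ UCS Q 1, s = t * n := by
      intro s t hst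
      have hg : (ll t)⁻¹ * ll s ∈ GG Q := by
        rw [← pr_eq_zero_iff, pr_mul, pr_inv, hst, neg_add_cancel]
      refine ⟨_, hZ _ hg, ?_⟩
      rw [mul_smul, ← ll_smul, smul_inv_smul, ll_one_smul]
    rw [Set.eq_univ_iff_forall]
    intro a x y
    refine ⟨aux _ _ ?_, aux _ _ ?_, aux _ _ ?_, aux _ _ ?_⟩
    · simp only [pr_ll_mul]; abel
    · simp only [pr_ll_mul]; abel
    · simp only [pr_ll_mul]; abel
    · simp only [pr_ll_mul]; abel

end

theorem Zs_mono_univ (k : ℕ) (h : UCS Q k = Set.univ) : UCS Q (k + 1) = Set.univ := by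
  rw [Set.eq_univ_iff_forall]
  intro a x y
  have aux : ∀ s t : Q, ∃ n ∈ UCS Q k, s = t * n := by
    intro s t
    obtain ⟨n, hn, _⟩ := LoopStr.existsUnique_right t s
    exact ⟨n, by rw [h]; trivial, hn.symm⟩
  exact ⟨aux _ _, aux _ _, aux _ _, aux _ _⟩

theorem class_ge_three (m : ℕ) : ∀ (Q : Type u) [LoopStr Q] [Finite (Mlt Q)],
    UCS Q (m + 3) = Set.univ → UCS Q (m + 2) ≠ Set.univ →
    (∀ g h : Mlt Q, g • (1 : Q) = 1 → h • (1 : Q) = 1 → g * h = h * g) →
    2 ^ 13 ≤ Nat.card (Mlt Q) := by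
  induction m with
  | zero =>
    intro Q _ _ h3 h2 habel
    exact class_three h3 h2 habel
  | succ m ih =>
    intro Q _ _ h3 h2 habel
    obtain ⟨hfin, hle⟩ := card_le (Q := Q)
    refine le_trans (ih (CQ Q) ?_ ?_ ?_) hle
    · rw [← Zs_succ_eq_univ]
      exact h3
    · rw [Ne, ← Zs_succ_eq_univ]
      exact h2
    · intro g' h' hg' hh'
      obtain ⟨g, hg, rfl⟩ := inn_lift g' hg'
      obtain ⟨h, hh, rfl⟩ := inn_lift h' hh'
      rw [← map_mul, ← map_mul, habel g h hg hh]

/-- **Main theorem.** A centrally nilpotent loop of class at least three with abelian inner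
mapping group has an infinite multiplication group or one of order at least `8192`. -/
theorem infinite_or_card_ge (Q : Type u) [LoopStr Q] (hnil : ∃ n, UCS Q n = Set.univ)
    (hclass : UCS Q 2 ≠ Set.univ) (habel : ∀ g ∈ Inn Q, ∀ h ∈ Inn Q, g * h = h * g) :
    Infinite (Mlt Q) ∨ 8192 ≤ Nat.card (Mlt Q) := by
  classical
  by_cases hfin : Finite (Mlt Q)
  · right
    have habel' : ∀ g h : Mlt Q, g • (1 : Q) = 1 → h • (1 : Q) = 1 → g * h = h * g := by
      intro g h hg hh
      exact Subtype.ext (habel g ⟨g.2, hg⟩ h ⟨h.2, hh⟩)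
    have h0 := Nat.find_spec hnil
    set n := Nat.find hnil with hn
    have hge : 3 ≤ n := by
      by_contra hlt
      push Not at hlt
      apply hclass
      interval_cases n
      · exact Zs_mono_univ 1 (Zs_mono_univ 0 h0)
      · exact Zs_mono_univ 1 h0
      · exact h0
    obtain ⟨m, hm⟩ : ∃ m, n = m + 3 := ⟨n - 3, by omega⟩
    have hlt : UCS Q (m + 2) ≠ Set.univ := Nat.find_min hnil (by omega)
    rw [hm] at h0
    exact class_ge_three m Q h0 hlt habel'
  · left
    exact not_finite_iff_infinite.mp hfin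

end Pool.Agent.MP_f8f515_al
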